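import Pool.Agent.R7.Dom.Defs

/-! `Γ_2(G) γ(Gᶜ) ≤ n` (Bollobás–Cockayne–Mynhardt) and consequences. -/

namespace Pool.Agent.R7.Dom

open Finset

section bcm

variable {V : Type*} [Fintype V] [DecidableEq V]

/-- closed adjacency -/
def ca (G : SimpleGraph V) (v w : V) : Prop := v = w ∨ G.Adj v w

omit [Fintype V] [DecidableEq V] in
theorem ca_symm {G : SimpleGraph V} {v w : V} (h : ca G v w) : ca G w v := by
  rcases h with rfl | h
  · exact Or.inl rfl
  · exact Or.inr h.symm

open Classical in
/-- The dominators of `v` in `X`. -/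
noncomputable def Sd (G : SimpleGraph V) (X : Finset V) (v : V) : Finset V :=
  X.filter (fun x => ca G v x)

theorem mem_Sd {G : SimpleGraph V} {X : Finset V} {v x : V} :
    x ∈ Sd G X v ↔ x ∈ X ∧ ca G v x := by
  unfold Sd; simp

theorem Sd_nonempty {G : SimpleGraph V} {X : Finset V} (hX : IsDom G X) (v : V) :
    (Sd G X v).Nonempty := by
  by_cases hv : v ∈ X
  · exact ⟨v, mem_Sd.mpr ⟨hv, Or.inl rfl⟩⟩
  · obtain ⟨w, hw, hvw⟩ := hX v hv
    exact ⟨w, mem_Sd.mpr ⟨hw, Or.inr hvw⟩⟩

/-- General witness extraction. -/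
theorem exists_witness {G : SimpleGraph V} {X : Finset V} {k : ℕ} (hX : IsKMinDom G k X)
    {U R : Finset V} (hU : U ⊆ X) (h1 : 1 ≤ U.card) (hk : U.card ≤ k)
    (hR : R.card = U.card - 1) :
    ∃ v, Sd G X v ⊆ U ∧ ∀ r ∈ R, ¬ ca G v r := by
  have hnd := hX.2 U.card h1 hk U R hU rfl hR
  unfold IsDom at hnd
  push Not at hnd
  obtain ⟨v, hv, hv'⟩ := hnd
  rw [Finset.mem_union, not_or, Finset.mem_sdiff] at hv
  refine ⟨v, ?_, ?_⟩
  · intro x hx
    rw [mem_Sd] at hx
    by_contra hxU
    have hmem : x ∈ X \ U := Finset.mem_sdiff.mpr ⟨hx.1, hxU⟩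
    rcases hx.2 with rfl | hcl
    · exact hv.1 ⟨hx.1, hxU⟩
    · exact hv' x (Finset.mem_union_left _ hmem) hcl
  · rintro r hr (rfl | hcl)
    · exact hv.2 hr
    · exact hv' r (Finset.mem_union_right _ hr) hcl

theorem priv_exists {G : SimpleGraph V} {X : Finset V} (hX : IsKMinDom G 2 X) {x : V}
    (hx : x ∈ X) : ∃ v, Sd G X v = {x} := by
  obtain ⟨v, hv, _⟩ := exists_witness hX (U := {x}) (R := ∅)
    (by simpa using hx) (by simp) (by simp) (by simp)
  refine ⟨v, ?_⟩
  rcases Finset.subset_singleton_iff.mp hv with h | h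
  · exact absurd h (Sd_nonempty hX.1 v).ne_empty
  · exact h

theorem pair_exists {G : SimpleGraph V} {X : Finset V} (hX : IsKMinDom G 2 X) {x1 x2 : V}
    (hx1 : x1 ∈ X) (hx2 : x2 ∈ X) (hne : x1 ≠ x2) (r : V) :
    ∃ v, ¬ ca G v r ∧ (Sd G X v = {x1} ∨ Sd G X v = {x2} ∨ Sd G X v = {x1, x2}) := by
  obtain ⟨v, hv, hvr⟩ := exists_witness hX (U := {x1, x2}) (R := {r})
    (by
      intro w hw
      rw [Finset.mem_insert, Finset.mem_singleton] at hw
      rcases hw with rfl | rfl
      · exact hx1
      · exact hx2) (by rw [Finset.card_pair hne]; norm_num)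
    (by rw [Finset.card_pair hne]) (by rw [Finset.card_pair hne]; simp)
  refine ⟨v, hvr r (by simp), ?_⟩
  have hne' := Sd_nonempty hX.1 v
  by_cases h1 : x1 ∈ Sd G X v
  · by_cases h2 : x2 ∈ Sd G X v
    · right; right
      apply Finset.Subset.antisymm hv
      intro w hw
      rw [Finset.mem_insert, Finset.mem_singleton] at hw
      rcases hw with rfl | rfl
      · exact h1
      · exact h2
    · left
      apply Finset.Subset.antisymm
      · intro w hw
        have := hv hw
        rw [Finset.mem_insert, Finset.mem_singleton] at this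
        rcases this with rfl | rfl
        · simp
        · exact absurd hw h2
      · simpa using h1
  · right; left
    apply Finset.Subset.antisymm
    · intro w hw
      have := hv hw
      rw [Finset.mem_insert, Finset.mem_singleton] at this
      rcases this with rfl | rfl
      · exact absurd hw h1
      · simp
    · intro w hw
      rw [Finset.mem_singleton] at hw
      subst hw
      obtain ⟨u, hu⟩ := hne'
      have := hv hu
      rw [Finset.mem_insert, Finset.mem_singleton] at this
      rcases this with rfl | rfl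
      · exact absurd hu h1
      · exact hu

open Classical in
/-- A maximal clique inside a finite set. -/
theorem exists_max_clique (G : SimpleGraph V) (E : Finset V) :
    ∃ I ⊆ E, (∀ v ∈ I, ∀ w ∈ I, ca G v w) ∧ ∀ v ∈ E, v ∉ I → ∃ w ∈ I, ¬ ca G v w := by
  obtain ⟨I, hI, hmax⟩ := Finset.exists_max_image
    (E.powerset.filter (fun I => ∀ v ∈ I, ∀ w ∈ I, ca G v w)) Finset.card
    ⟨∅, by simp⟩
  rw [Finset.mem_filter, Finset.mem_powerset] at hI
  refine ⟨I, hI.1, hI.2, ?_⟩
  intro v hv hvI
  by_contra hcon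
  push Not at hcon
  have := hmax (insert v I) (by
    rw [Finset.mem_filter, Finset.mem_powerset]
    refine ⟨Finset.insert_subset hv hI.1, ?_⟩
    intro a ha b hb
    rw [Finset.mem_insert] at ha hb
    rcases ha with rfl | ha
    · rcases hb with rfl | hb
      · exact Or.inl rfl
      · exact hcon b hb
    · rcases hb with rfl | hb
      · exact ca_symm (hcon a ha)
      · exact hI.2 a ha b hb)
  rw [Finset.card_insert_of_notMem hvI] at this
  omega

open Classical in
/-- Stage one assignment. -/
theorem stage_one [Nonempty V] {G : SimpleGraph V} {X : Finset V} (hX : IsKMinDom G 2 X) :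
    ∃ c : V → V, (∀ v ∈ X, c v = v) ∧ (∀ v x, Sd G X v = {x} → c v = x) ∧
      (∀ v, (Sd G X v).card = 2 → c v ∈ Sd G X v) ∧
      (∀ r, r ∉ X → (Sd G X r).card = 2 → ∀ x ∈ X, c r ≠ x →
        ∃ v, (v ∈ X ∨ (Sd G X v).card ≤ 2) ∧ c v = x ∧ ¬ ca G r v) := by
  set E : Finset V → Finset V := fun e => univ.filter (fun v => v ∉ X ∧ Sd G X v = e) with hE
  have hmemE : ∀ e v, v ∈ E e ↔ v ∉ X ∧ Sd G X v = e := by
    intro e v; simp [hE]
  choose I hIE hIc hIm using fun e => exists_max_clique G (E e)
  have hpq : ∀ e : Finset V, ∃ p q : V, e.card = 2 → p ≠ q ∧ e = {p, q} := by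
    intro e
    by_cases h : e.card = 2
    · obtain ⟨p, q, h1, h2⟩ := Finset.card_eq_two.mp h
      exact ⟨p, q, fun _ => ⟨h1, h2⟩⟩
    · exact ⟨Classical.arbitrary V, Classical.arbitrary V, fun h' => absurd h' h⟩
  choose p q hpq using hpq
  have hone : ∀ v, ∃ x, (Sd G X v).card = 1 → Sd G X v = {x} := by
    intro v
    by_cases h : (Sd G X v).card = 1
    · obtain ⟨x, hx⟩ := Finset.card_eq_one.mp h
      exact ⟨x, fun _ => hx⟩
    · exact ⟨v, fun h' => absurd h' h⟩
  choose o ho using hone
  set c : V → V := fun v =>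
    if v ∈ X then v
    else if (Sd G X v).card = 1 then o v
    else if ∃ w ∈ E (Sd G X v), ¬ ca G v w then
      (if v ∈ I (Sd G X v) then p (Sd G X v) else q (Sd G X v))
    else if ∀ u, Sd G X u = {p (Sd G X v)} → ca G v u then p (Sd G X v)
    else q (Sd G X v) with hc
  have hcX : ∀ v ∈ X, c v = v := by
    intro v hv
    simp only [hc]
    rw [if_pos hv]
  have hc1 : ∀ v x, Sd G X v = {x} → c v = x := by
    intro v x hx
    by_cases hv : v ∈ X
    · rw [hcX v hv]
      have : v ∈ Sd G X v := mem_Sd.mpr ⟨hv, Or.inl rfl⟩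
      rw [hx, Finset.mem_singleton] at this
      exact this
    · simp only [hc]
      have h1 : (Sd G X v).card = 1 := by rw [hx]; simp
      rw [if_neg hv, if_pos h1]
      have := ho v h1
      rw [hx] at this
      exact (Finset.singleton_injective this).symm
  have hc2 : ∀ v, v ∉ X → (Sd G X v).card = 2 → (∃ w ∈ E (Sd G X v), ¬ ca G v w) →
      c v = if v ∈ I (Sd G X v) then p (Sd G X v) else q (Sd G X v) := by
    intro v hv h2 hw
    simp only [hc]
    rw [if_neg hv, if_neg (by omega), if_pos hw]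
  have hc3 : ∀ v, v ∉ X → (Sd G X v).card = 2 → (¬ ∃ w ∈ E (Sd G X v), ¬ ca G v w) →
      c v = if ∀ u, Sd G X u = {p (Sd G X v)} → ca G v u then p (Sd G X v)
        else q (Sd G X v) := by
    intro v hv h2 hw
    simp only [hc]
    rw [if_neg hv, if_neg (by omega), if_neg hw]
  refine ⟨c, hcX, hc1, ?_, ?_⟩
  · intro v h2
    obtain ⟨hne, he⟩ := hpq _ h2
    have hp : p (Sd G X v) ∈ Sd G X v := by
      have : p (Sd G X v) ∈ ({p (Sd G X v), q (Sd G X v)} : Finset V) := by simp
      rwa [← he] at this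
    have hq : q (Sd G X v) ∈ Sd G X v := by
      have : q (Sd G X v) ∈ ({p (Sd G X v), q (Sd G X v)} : Finset V) := by simp
      rwa [← he] at this
    by_cases hv : v ∈ X
    · rw [hcX v hv]
      exact mem_Sd.mpr ⟨hv, Or.inl rfl⟩
    · by_cases hw : ∃ w ∈ E (Sd G X v), ¬ ca G v w
      · rw [hc2 v hv h2 hw]
        split_ifs
        · exact hp
        · exact hq
      · rw [hc3 v hv h2 hw]
        split_ifs
        · exact hp
        · exact hq
  · intro r hr h2 x hx hcr
    by_cases hxS : x ∈ Sd G X r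
    swap
    · refine ⟨x, Or.inl hx, hcX x hx, ?_⟩
      intro hcl
      exact hxS (mem_Sd.mpr ⟨hx, hcl⟩)
    obtain ⟨hne, he⟩ := hpq _ h2
    set e := Sd G X r with hedef
    have hrE : r ∈ E e := (hmemE e r).mpr ⟨hr, rfl⟩
    have hpS : p e ∈ Sd G X r := by
      have : p e ∈ ({p e, q e} : Finset V) := by simp
      rw [← he] at this
      exact this
    have hqS : q e ∈ Sd G X r := by
      have : q e ∈ ({p e, q e} : Finset V) := by simp
      rw [← he] at this
      exact this
    have hxpq : x = p e ∨ x = q e := by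
      rw [he] at hxS
      simpa using hxS
    by_cases hw : ∃ w ∈ E e, ¬ ca G r w
    · by_cases hrI : r ∈ I e
      · have hcr' : c r = p e := by
          rw [hc2 r hr h2 hw, if_pos hrI]
        have hxq : x = q e := by
          rcases hxpq with h | h
          · exact absurd (hcr'.trans h.symm) hcr
          · exact h
        obtain ⟨w, hwE, hwr⟩ := hw
        have hwE' := (hmemE e w).mp hwE
        have hwI : w ∉ I e := fun h => hwr (hIc e r hrI w h)
        refine ⟨w, Or.inr (by rw [hwE'.2]; omega), ?_, hwr⟩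
        rw [hc2 w hwE'.1 (by rw [hwE'.2]; exact h2)
          ⟨r, by rw [hwE'.2]; exact hrE, fun h => hwr (ca_symm h)⟩, hwE'.2, if_neg hwI, hxq]
      · have hcr' : c r = q e := by
          rw [hc2 r hr h2 hw, if_neg hrI]
        have hxp : x = p e := by
          rcases hxpq with h | h
          · exact h
          · exact absurd (hcr'.trans h.symm) hcr
        obtain ⟨w, hwI, hwr⟩ := hIm e r hrE hrI
        have hwE' := (hmemE e w).mp (hIE e hwI)
        refine ⟨w, Or.inr (by rw [hwE'.2]; omega), ?_, hwr⟩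
        rw [hc2 w hwE'.1 (by rw [hwE'.2]; exact h2)
          ⟨r, by rw [hwE'.2]; exact hrE, fun h => hwr (ca_symm h)⟩, hwE'.2, if_pos hwI, hxp]
    · have hcr' := hc3 r hr h2 hw
      by_cases hP : ∀ u, Sd G X u = {p e} → ca G r u
      · rw [if_pos hP] at hcr'
        have hxq : x = q e := by
          rcases hxpq with h | h
          · exact absurd (hcr'.trans h.symm) hcr
          · exact h
        obtain ⟨v, hvr, hv⟩ := pair_exists hX (mem_Sd.mp hpS).1 (mem_Sd.mp hqS).1 hne r
        rcases hv with hv | hv | hv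
        · exact absurd (ca_symm (hP v hv)) hvr
        · refine ⟨v, Or.inr (by rw [hv]; simp), ?_, fun h => hvr (ca_symm h)⟩
          rw [hc1 v _ hv, hxq]
        · exfalso
          rw [← he] at hv
          by_cases hvX : v ∈ X
          · have : v ∈ Sd G X v := mem_Sd.mpr ⟨hvX, Or.inl rfl⟩
            rw [hv] at this
            exact hvr (ca_symm (mem_Sd.mp this).2)
          · apply hw
            exact ⟨v, (hmemE e v).mpr ⟨hvX, hv⟩, fun h => hvr (ca_symm h)⟩
      · rw [if_neg hP] at hcr'
        have hxp : x = p e := by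
          rcases hxpq with h | h
          · exact h
          · exact absurd (hcr'.trans h.symm) hcr
        push Not at hP
        obtain ⟨u, hu, hur⟩ := hP
        refine ⟨u, Or.inr (by rw [hu]; simp), ?_, hur⟩
        rw [hc1 u _ hu, hxp]

open Classical in
/-- The full assignment: each class is dominating in the complement. -/
theorem stage_two [Nonempty V] {G : SimpleGraph V} {X : Finset V} (hX : IsKMinDom G 2 X)
    (hXne : X.Nonempty) :
    ∃ c : V → V, (∀ v, c v ∈ X) ∧ ∀ x ∈ X, IsDom Gᶜ (univ.filter (fun v => c v = x)) := by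
  obtain ⟨c, hcX, hc1, hc2, hc3⟩ := stage_one hX
  have hex : ∀ r : V, ∃ x ∈ X, (r ∈ X ∨ (Sd G X r).card ≤ 2 → c r = x) ∧
      (¬ (r ∈ X ∨ (Sd G X r).card ≤ 2) → ∀ x' ∈ X, x' ≠ x →
        ∃ v, (v ∈ X ∨ (Sd G X v).card ≤ 2) ∧ c v = x' ∧ ¬ ca G r v) := by
    intro r
    by_cases hr : r ∈ X ∨ (Sd G X r).card ≤ 2
    · refine ⟨c r, ?_, fun _ => rfl, fun h => absurd hr h⟩
      rcases hr with hr | hr
      · rw [hcX r hr]; exact hr
      · have hpos := Finset.card_pos.mpr (Sd_nonempty hX.1 r)
        rcases (show (Sd G X r).card = 1 ∨ (Sd G X r).card = 2 by omega) with h1 | h2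
        · obtain ⟨x, hx⟩ := Finset.card_eq_one.mp h1
          rw [hc1 r x hx]
          have : x ∈ Sd G X r := by rw [hx]; simp
          exact (mem_Sd.mp this).1
        · exact (mem_Sd.mp (hc2 r h2)).1
    · by_cases hall : ∃ x ∈ X, ∀ v, (v ∈ X ∨ (Sd G X v).card ≤ 2) → c v = x → ca G r v
      · obtain ⟨x, hx, hxall⟩ := hall
        refine ⟨x, hx, fun h => absurd h hr, ?_⟩
        intro _ x' hx' hne
        by_contra hcon
        push Not at hcon
        obtain ⟨v, hvr, hv⟩ := pair_exists hX hx hx' (Ne.symm hne) r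
        have hsmall : v ∈ X ∨ (Sd G X v).card ≤ 2 := by
          right
          rcases hv with hv | hv | hv
          · rw [hv]; simp
          · rw [hv]; simp
          · rw [hv]; exact Finset.card_le_two
        have hcv : c v = x ∨ c v = x' := by
          rcases hv with hv | hv | hv
          · left; exact hc1 v x hv
          · right; exact hc1 v x' hv
          · have := hc2 v (by rw [hv]; exact Finset.card_pair (Ne.symm hne))
            rw [hv, Finset.mem_insert, Finset.mem_singleton] at this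
            exact this
        rcases hcv with h | h
        · exact hvr (ca_symm (hxall v hsmall h))
        · exact hvr (ca_symm (hcon v hsmall h))
      · push Not at hall
        obtain ⟨x0, hx0⟩ := hXne
        refine ⟨x0, hx0, fun h => absurd h hr, ?_⟩
        intro _ x' hx' _
        obtain ⟨v, h1, h2, h3⟩ := hall x' hx'
        exact ⟨v, h1, h2, h3⟩
  choose d hdX hd1 hd2 using hex
  refine ⟨d, hdX, ?_⟩
  intro x hx r hr
  rw [Finset.mem_filter, not_and] at hr
  have hdr : d r ≠ x := hr (Finset.mem_univ _)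
  have hkey : ∃ v, (v ∈ X ∨ (Sd G X v).card ≤ 2) ∧ c v = x ∧ ¬ ca G r v := by
    by_cases hr' : r ∈ X ∨ (Sd G X r).card ≤ 2
    swap
    · exact hd2 r hr' x hx (Ne.symm hdr)
    have hdc : c r ≠ x := by
      rw [hd1 r hr']; exact hdr
    by_cases hrX : r ∈ X
    · obtain ⟨v, hv⟩ := priv_exists hX hx
      refine ⟨v, Or.inr (by rw [hv]; simp), hc1 v x hv, ?_⟩
      intro hcl
      have : r ∈ Sd G X v := mem_Sd.mpr ⟨hrX, ca_symm hcl⟩
      rw [hv, Finset.mem_singleton] at this
      apply hdc
      rw [hcX r hrX, this]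
    · have hle : (Sd G X r).card ≤ 2 := hr'.resolve_left hrX
      have hpos := Finset.card_pos.mpr (Sd_nonempty hX.1 r)
      rcases (show (Sd G X r).card = 1 ∨ (Sd G X r).card = 2 by omega) with h1 | h2
      · obtain ⟨x0, hx0⟩ := Finset.card_eq_one.mp h1
        have hcr := hc1 r x0 hx0
        refine ⟨x, Or.inl hx, hcX x hx, ?_⟩
        intro hcl
        have : x ∈ Sd G X r := mem_Sd.mpr ⟨hx, hcl⟩
        rw [hx0, Finset.mem_singleton] at this
        exact hdc (hcr.trans this.symm)
      · exact hc3 r hrX h2 x hx hdc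
  obtain ⟨v, hv1, hv2, hv3⟩ := hkey
  refine ⟨v, ?_, ?_⟩
  · rw [Finset.mem_filter]
    exact ⟨Finset.mem_univ _, by rw [← hd1 v hv1]; exact hv2⟩
  · rw [SimpleGraph.compl_adj]
    exact ⟨fun h => hv3 (Or.inl h), fun h => hv3 (Or.inr h)⟩

/-- Bollobás–Cockayne–Mynhardt: `Γ_2(G) γ(Gᶜ) ≤ n`. -/
theorem bcm {G : SimpleGraph V} {X : Finset V} (hX : IsKMinDom G 2 X) {m : ℕ}
    (hm : ∀ D : Finset V, IsDom Gᶜ D → m ≤ D.card) : X.card * m ≤ Fintype.card V := by
  classical
  rcases X.eq_empty_or_nonempty with h0 | hne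
  · rw [h0]; simp
  have : Nonempty V := ⟨hne.choose⟩
  obtain ⟨c, hc, hdom⟩ := stage_two hX hne
  have h1 : X.card * m ≤ ∑ x ∈ X, (univ.filter (fun v => c v = x)).card := by
    rw [← smul_eq_mul]
    apply Finset.card_nsmul_le_sum
    intro x hx
    exact hm _ (hdom x hx)
  have h2 : (univ : Finset V).card = ∑ x ∈ X, (univ.filter (fun v => c v = x)).card :=
    Finset.card_eq_sum_card_fiberwise (fun v _ => hc v)
  rw [Finset.card_univ] at h2
  omega

/-- A `k`-minimal dominating set with fewer than `k` elements is a minimum dominating set. -/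
theorem small_is_min {G : SimpleGraph V} {X : Finset V} {k : ℕ} (hX : IsKMinDom G k X)
    (hk : X.card < k) {D : Finset V} (hD : IsDom G D) : X.card ≤ D.card := by
  by_contra hcon
  push Not at hcon
  obtain ⟨U, hU, hUc⟩ := Finset.exists_subset_card_eq (s := X) (n := D.card + 1) (by omega)
  exact hX.2 (D.card + 1) (by omega) (by omega) U D hU hUc (by omega)
    (hD.mono Finset.subset_union_right)

theorem IsKMinDom.mono {G : SimpleGraph V} {X : Finset V} {k l : ℕ} (hX : IsKMinDom G k X)
    (h : l ≤ k) : IsKMinDom G l X :=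
  ⟨hX.1, fun m h1 h2 => hX.2 m h1 (h2.trans h)⟩

/-- If the product exceeds `n` then both sets have at least `k` elements. -/
theorem both_large {G : SimpleGraph V} {X Y : Finset V} {k : ℕ} (hk : 2 ≤ k)
    (hX : IsKMinDom G k X) (hY : IsKMinDom Gᶜ k Y)
    (h : Fintype.card V < X.card * Y.card) : k ≤ X.card ∧ k ≤ Y.card := by
  constructor
  · by_contra hcon
    push Not at hcon
    have := bcm (hY.mono hk) (m := X.card) (by
      intro D hD
      rw [compl_compl] at hD
      exact small_is_min hX hcon hD)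
    rw [mul_comm] at this
    omega
  · by_contra hcon
    push Not at hcon
    have := bcm (hX.mono hk) (m := Y.card) (fun D hD => small_is_min hY hcon hD)
    omega

end bcm

end Pool.Agent.R7.Dom
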