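import Pool.Agent.R7.Dom.Defs

/-! The lower bound construction for `g(n,k)` from a good `0/1` pattern. -/

namespace Pool.Agent.R7.Dom

open Finset

/-- A pattern (a `0/1` matrix with `s` rows and `c` columns) such that any `p` columns have a
common `0`, any `p` rows have a common `1`, each column has a `1` and each row has a `0`. -/
structure GoodPattern (p s c : ℕ) (M : Fin s → Fin c → Prop) : Prop where
  zero : ∀ C : Finset (Fin c), C.card ≤ p → ∃ t, ∀ f ∈ C, ¬ M t f
  one : ∀ T : Finset (Fin s), T.card ≤ p → ∃ f, ∀ t ∈ T, M t f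
  colOne : ∀ f, ∃ t, M t f
  rowZero : ∀ t, ∃ f, ¬ M t f

/-- Sufficient condition for `k`-minimality. -/
theorem kmin_of_units {V ι : Type*} [DecidableEq V] [Fintype ι] [DecidableEq ι]
    (G : SimpleGraph V) (k : ℕ) (x : ι → V) (lab : V → Option ι)
    (hx : ∀ i, lab (x i) = some i)
    (hdom : IsDom G (univ.image x))
    (hu : ∀ i (R : Finset V), R.card ≤ k - 1 → (∀ r ∈ R, lab r ≠ some i) →
      ∃ w, lab w = some i ∧ (∀ r ∈ R, ¬ G.Adj w r) ∧ (∀ j, j ≠ i → ¬ G.Adj w (x j))) :
    IsKMinDom G k (univ.image x) := by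
  refine ⟨hdom, ?_⟩
  intro l hl1 hlk U R hU hUc hRc hcon
  have hsub : U ⊆ (univ.filter (fun i => x i ∈ U)).image x := by
    intro v hv
    have := hU hv
    rw [Finset.mem_image] at this
    obtain ⟨i, _, rfl⟩ := this
    rw [Finset.mem_image]
    exact ⟨i, by simpa using hv, rfl⟩
  have hI : U.card ≤ (univ.filter (fun i => x i ∈ U)).card :=
    le_trans (Finset.card_le_card hsub) Finset.card_image_le
  have hI' : ((univ.filter (fun i => x i ∈ U)).image (some : ι → Option ι)).card
      = (univ.filter (fun i => x i ∈ U)).card :=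
    Finset.card_image_of_injective _ (Option.some_injective ι)
  have hR' : (R.image lab).card ≤ R.card := Finset.card_image_le
  have hlt : (R.image lab).card
      < ((univ.filter (fun i => x i ∈ U)).image (some : ι → Option ι)).card := by omega
  obtain ⟨o, ho, hoR⟩ := Finset.exists_mem_notMem_of_card_lt_card hlt
  rw [Finset.mem_image] at ho
  obtain ⟨i, hi, rfl⟩ := ho
  rw [Finset.mem_filter] at hi
  have hRlab : ∀ r ∈ R, lab r ≠ some i := by
    intro r hr he
    apply hoR
    rw [Finset.mem_image]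
    exact ⟨r, hr, he⟩
  obtain ⟨w, hwl, hwR, hwx⟩ := hu i R (by omega) hRlab
  have hw : w ∉ (univ.image x \ U) ∪ R := by
    intro hw
    rw [Finset.mem_union, Finset.mem_sdiff, Finset.mem_image] at hw
    rcases hw with ⟨⟨j, _, rfl⟩, hjU⟩ | hw
    · rw [hx j] at hwl
      have : j = i := Option.some_injective _ hwl
      subst this
      exact hjU hi.2
    · exact hRlab w hw hwl
  obtain ⟨z, hz, hwz⟩ := hcon w hw
  rw [Finset.mem_union, Finset.mem_sdiff, Finset.mem_image] at hz
  rcases hz with ⟨⟨j, _, rfl⟩, hjU⟩ | hz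
  · refine hwx j ?_ hwz
    rintro rfl
    exact hjU hi.2
  · exact hwR z hz hwz

section graph

variable {a b s c r : ℕ}

/-- The vertex set of the construction. -/
abbrev Vt (a b s c r : ℕ) := (Fin a × Fin s) ⊕ ((Fin b × Fin c) ⊕ Fin r)

/-- Adjacency of the construction. -/
def adjRel (M : Fin s → Fin c → Prop) (tc : Fin a → Fin s) (fc : Fin b → Fin c)
    (t0 : Fin s) (f0 : Fin c) : Vt a b s c r → Vt a b s c r → Prop
  | Sum.inl (i, t), Sum.inl (i', t') => i = i' ∧ t ≠ t' ∧ (t = tc i ∨ t' = tc i)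
  | Sum.inl (_, t), Sum.inr (Sum.inl (_, f)) => M t f
  | Sum.inr (Sum.inl (_, f)), Sum.inl (_, t) => M t f
  | Sum.inl (_, t), Sum.inr (Sum.inr _) => M t f0
  | Sum.inr (Sum.inr _), Sum.inl (_, t) => M t f0
  | Sum.inr (Sum.inl (j, f)), Sum.inr (Sum.inl (j', f')) =>
      (j, f) ≠ (j', f') ∧ ¬ (j = j' ∧ (f = fc j ∨ f' = fc j))
  | Sum.inr (Sum.inl (_, f)), Sum.inr (Sum.inr _) => M t0 f
  | Sum.inr (Sum.inr _), Sum.inr (Sum.inl (_, f)) => M t0 f
  | Sum.inr (Sum.inr _), Sum.inr (Sum.inr _) => False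

/-- The graph of the construction. -/
def cGraph (M : Fin s → Fin c → Prop) (tc : Fin a → Fin s) (fc : Fin b → Fin c)
    (t0 : Fin s) (f0 : Fin c) : SimpleGraph (Vt a b s c r) where
  Adj := adjRel M tc fc t0 f0
  symm := by
    constructor
    rintro (⟨i, t⟩ | ⟨j, f⟩ | e) (⟨i', t'⟩ | ⟨j', f'⟩ | e') h
    · obtain ⟨rfl, h2, h3⟩ := h
      exact ⟨rfl, h2.symm, h3.symm⟩
    · exact h
    · exact h
    · exact h
    · obtain ⟨h1, h2⟩ := h
      refine ⟨h1.symm, ?_⟩
      rintro ⟨rfl, h3⟩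
      exact h2 ⟨rfl, h3.symm⟩
    · exact h
    · exact h
    · exact h
    · exact h
  loopless := by
    constructor
    rintro (⟨i, t⟩ | ⟨j, f⟩ | e) h
    · exact h.2.1 rfl
    · exact h.1 rfl
    · exact h

variable {M : Fin s → Fin c → Prop} {tc : Fin a → Fin s} {fc : Fin b → Fin c}
  {t0 : Fin s} {f0 : Fin c}

/-- The centres of the first kind. -/
def xc (tc : Fin a → Fin s) : Fin a → Vt a b s c r := fun i => Sum.inl (i, tc i)

/-- The centres of the second kind. -/
def yc (fc : Fin b → Fin c) : Fin b → Vt a b s c r := fun j => Sum.inr (Sum.inl (j, fc j))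

theorem kmin_A {k : ℕ} (hM : GoodPattern (k - 1) s c M) (htc : Function.Surjective tc) :
    IsKMinDom (cGraph (r := r) M tc fc t0 f0) k (univ.image (xc tc)) := by
  classical
  apply kmin_of_units _ k (xc tc)
    (fun v => match v with
      | Sum.inl (i, _) => some i
      | Sum.inr _ => none)
  · intro i; rfl
  · intro v hv
    have hall : ∀ f, ∃ i, M (tc i) f := by
      intro f
      obtain ⟨t, ht⟩ := hM.colOne f
      obtain ⟨i, rfl⟩ := htc t
      exact ⟨i, ht⟩
    rcases v with ⟨i, t⟩ | ⟨j, f⟩ | e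
    · refine ⟨xc tc i, Finset.mem_image_of_mem _ (Finset.mem_univ _), ?_⟩
      refine ⟨rfl, ?_, Or.inr rfl⟩
      rintro rfl
      exact hv (Finset.mem_image_of_mem (xc tc) (Finset.mem_univ i))
    · obtain ⟨i, hi⟩ := hall f
      exact ⟨xc tc i, Finset.mem_image_of_mem _ (Finset.mem_univ _), hi⟩
    · obtain ⟨i, hi⟩ := hall f0
      exact ⟨xc tc i, Finset.mem_image_of_mem _ (Finset.mem_univ _), hi⟩
  · intro i R hRc hRl
    set col : Vt a b s c r → Fin c := fun v => match v with
      | Sum.inl _ => f0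
      | Sum.inr (Sum.inl (_, f)) => f
      | Sum.inr (Sum.inr _) => f0 with hcol
    obtain ⟨t, ht⟩ := hM.zero (R.image col) (le_trans Finset.card_image_le hRc)
    refine ⟨Sum.inl (i, t), rfl, ?_, ?_⟩
    · rintro (⟨i', t'⟩ | ⟨j, f⟩ | e) hr hadj
      · have h1 : i = i' := hadj.1
        subst h1
        exact hRl _ hr rfl
      · exact ht f (Finset.mem_image.mpr ⟨_, hr, rfl⟩) hadj
      · exact ht f0 (Finset.mem_image.mpr ⟨_, hr, rfl⟩) hadj
    · intro j hj hadj
      exact hj hadj.1.symm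

theorem kmin_B {k : ℕ} (hM : GoodPattern (k - 1) s c M) (hfc : Function.Surjective fc) :
    IsKMinDom (cGraph (r := r) M tc fc t0 f0)ᶜ k (univ.image (yc fc)) := by
  classical
  apply kmin_of_units _ k (yc fc)
    (fun v => match v with
      | Sum.inl _ => none
      | Sum.inr (Sum.inl (j, _)) => some j
      | Sum.inr (Sum.inr _) => none)
  · intro i; rfl
  · intro v hv
    have hall : ∀ t, ∃ j, ¬ M t (fc j) := by
      intro t
      obtain ⟨f, hf⟩ := hM.rowZero t
      obtain ⟨j, rfl⟩ := hfc f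
      exact ⟨j, hf⟩
    rcases v with ⟨i, t⟩ | ⟨j, f⟩ | e
    · obtain ⟨j, hj⟩ := hall t
      refine ⟨yc fc j, Finset.mem_image_of_mem _ (Finset.mem_univ _), ?_⟩
      rw [SimpleGraph.compl_adj]
      exact ⟨by simp [yc], hj⟩
    · refine ⟨yc fc j, Finset.mem_image_of_mem _ (Finset.mem_univ _), ?_⟩
      rw [SimpleGraph.compl_adj]
      refine ⟨?_, ?_⟩
      · intro h
        exact hv (h ▸ Finset.mem_image_of_mem (yc fc) (Finset.mem_univ j))
      · intro h
        exact h.2 ⟨rfl, Or.inr rfl⟩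
    · obtain ⟨j, hj⟩ := hall t0
      refine ⟨yc fc j, Finset.mem_image_of_mem _ (Finset.mem_univ _), ?_⟩
      rw [SimpleGraph.compl_adj]
      exact ⟨by simp [yc], hj⟩
  · intro j R hRc hRl
    set row : Vt a b s c r → Fin s := fun v => match v with
      | Sum.inl (_, t) => t
      | Sum.inr (Sum.inl _) => t0
      | Sum.inr (Sum.inr _) => t0 with hrow
    obtain ⟨f, hf⟩ := hM.one (R.image row) (le_trans Finset.card_image_le hRc)
    refine ⟨Sum.inr (Sum.inl (j, f)), rfl, ?_, ?_⟩
    · rintro (⟨i, t⟩ | ⟨j', f'⟩ | e) hr hadj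
      · rw [SimpleGraph.compl_adj] at hadj
        exact hadj.2 (hf t (Finset.mem_image.mpr ⟨_, hr, rfl⟩))
      · rw [SimpleGraph.compl_adj] at hadj
        apply hadj.2
        refine ⟨?_, ?_⟩
        · intro h
          rw [Prod.mk.injEq] at h
          obtain ⟨rfl, rfl⟩ := h
          exact hRl _ hr rfl
        · rintro ⟨rfl, _⟩
          exact hRl _ hr rfl
      · rw [SimpleGraph.compl_adj] at hadj
        exact hadj.2 (hf t0 (Finset.mem_image.mpr ⟨_, hr, rfl⟩))
    · intro j' hj' hadj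
      rw [SimpleGraph.compl_adj] at hadj
      apply hadj.2
      refine ⟨?_, ?_⟩
      · intro h
        rw [Prod.mk.injEq] at h
        exact hj' h.1.symm
      · rintro ⟨rfl, _⟩
        exact hj' rfl

end graph

/-- Lower bound for `g(n,k)` from a good pattern. -/
theorem g_lower_of_pattern {k s c : ℕ} {M : Fin s → Fin c → Prop}
    (hM : GoodPattern (k - 1) s c M) {a b n : ℕ} (ha : s ≤ a) (hb : c ≤ b)
    (hn : a * s + b * c ≤ n) : a * b ≤ g n k := by
  obtain ⟨t0, _⟩ := hM.zero ∅ (by simp)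
  obtain ⟨f0, _⟩ := hM.one ∅ (by simp)
  have hs : 0 < s := t0.pos
  have hc : 0 < c := f0.pos
  set tc : Fin a → Fin s := fun i => ⟨i.1 % s, Nat.mod_lt _ hs⟩ with htc
  set fc : Fin b → Fin c := fun i => ⟨i.1 % c, Nat.mod_lt _ hc⟩ with hfc
  have htcs : Function.Surjective tc := by
    intro t
    refine ⟨⟨t.1, lt_of_lt_of_le t.2 ha⟩, ?_⟩
    apply Fin.ext
    exact Nat.mod_eq_of_lt t.2
  have hfcs : Function.Surjective fc := by
    intro t
    refine ⟨⟨t.1, lt_of_lt_of_le t.2 hb⟩, ?_⟩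
    apply Fin.ext
    exact Nat.mod_eq_of_lt t.2
  set r := n - (a * s + b * c) with hr
  have hA := kmin_A (r := r) (fc := fc) (t0 := t0) (f0 := f0) hM htcs
  have hB := kmin_B (r := r) (tc := tc) (t0 := t0) (f0 := f0) hM hfcs
  have hcard : Fintype.card (Vt a b s c r) = n := by
    simp only [Vt, Fintype.card_sum, Fintype.card_prod, Fintype.card_fin]
    omega
  set e : Fin n ≃ Vt a b s c r := (Fintype.equivFinOfCardEq hcard).symm with he
  have hA' := isKMinDom_comap e _ k _ hA
  have hB' := isKMinDom_comap e _ k _ hB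
  rw [← compl_comap] at hB'
  have h := le_g hA' hB'
  rw [Finset.card_map, Finset.card_map, Finset.card_image_of_injective,
    Finset.card_image_of_injective, Finset.card_univ, Finset.card_univ, Fintype.card_fin,
    Fintype.card_fin] at h
  · exact h
  · intro j j' hjj
    simp only [yc, Sum.inr.injEq, Sum.inl.injEq, Prod.mk.injEq] at hjj
    exact hjj.1
  · intro j j' hjj
    simp only [xc, Sum.inl.injEq, Prod.mk.injEq] at hjj
    exact hjj.1

end Pool.Agent.R7.Dom
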