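import Mathlib

/-! Definitions for the `k`-minimal domination problem MP_213d49_co. -/

namespace Pool.Agent.R7.Dom

open Finset

/-- `S` is a dominating set of `G`: every vertex outside `S` has a neighbour in `S`. -/
def IsDom {V : Type*} (G : SimpleGraph V) (S : Finset V) : Prop :=
  ∀ v, v ∉ S → ∃ w ∈ S, G.Adj v w

/-- `X` is a `k`-minimal dominating set of `G`: it is dominating, and for every `1 ≤ ℓ ≤ k`, every
`ℓ`-element `U ⊆ X` and every `(ℓ-1)`-element set `R` of vertices, `(X \ U) ∪ R` is not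
dominating. -/
def IsKMinDom {V : Type*} [DecidableEq V] (G : SimpleGraph V) (k : ℕ) (X : Finset V) : Prop :=
  IsDom G X ∧
    ∀ l, 1 ≤ l → l ≤ k → ∀ U R : Finset V, U ⊆ X → U.card = l → R.card = l - 1 →
      ¬ IsDom G ((X \ U) ∪ R)

/-- `Γ_k(G)`: the largest size of a `k`-minimal dominating set of `G`. -/
noncomputable def GammaK {V : Type*} [DecidableEq V] (G : SimpleGraph V) (k : ℕ) : ℕ :=
  sSup {m : ℕ | ∃ X : Finset V, IsKMinDom G k X ∧ X.card = m}

/-- `g(n,k)`: the maximum of `Γ_k(G) Γ_k(Gᶜ)` over all graphs `G` with `n` vertices. -/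
noncomputable def g (n k : ℕ) : ℕ :=
  sSup {m : ℕ | ∃ G : SimpleGraph (Fin n), GammaK G k * GammaK Gᶜ k = m}

section basics

variable {V : Type*} [Fintype V] [DecidableEq V]

omit [Fintype V] [DecidableEq V] in
theorem IsDom.mono {G : SimpleGraph V} {S T : Finset V} (h : IsDom G S) (hST : S ⊆ T) :
    IsDom G T := by
  intro v hv
  obtain ⟨w, hw, hvw⟩ := h v (fun h' => hv (hST h'))
  exact ⟨w, hST hw, hvw⟩

theorem bdd_GammaK (G : SimpleGraph V) (k : ℕ) :
    BddAbove {m : ℕ | ∃ X : Finset V, IsKMinDom G k X ∧ X.card = m} := by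
  refine ⟨Fintype.card V, ?_⟩
  rintro m ⟨X, _, rfl⟩
  exact Finset.card_le_univ X

theorem card_le_GammaK {G : SimpleGraph V} {k : ℕ} {X : Finset V} (hX : IsKMinDom G k X) :
    X.card ≤ GammaK G k :=
  le_csSup (bdd_GammaK G k) ⟨X, hX, rfl⟩

theorem GammaK_eq_zero_or (G : SimpleGraph V) (k : ℕ) :
    GammaK G k = 0 ∨ ∃ X : Finset V, IsKMinDom G k X ∧ X.card = GammaK G k := by
  by_cases h : {m : ℕ | ∃ X : Finset V, IsKMinDom G k X ∧ X.card = m}.Nonempty
  · right
    exact Nat.sSup_mem h (bdd_GammaK G k)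
  · left
    rw [Set.not_nonempty_iff_eq_empty] at h
    unfold GammaK
    rw [h]
    simp

theorem GammaK_le (G : SimpleGraph V) (k : ℕ) : GammaK G k ≤ Fintype.card V := by
  rcases GammaK_eq_zero_or G k with h | ⟨X, _, h⟩
  · omega
  · rw [← h]; exact Finset.card_le_univ X

theorem bdd_g (n k : ℕ) :
    BddAbove {m : ℕ | ∃ G : SimpleGraph (Fin n), GammaK G k * GammaK Gᶜ k = m} := by
  refine ⟨n * n, ?_⟩
  rintro m ⟨G, rfl⟩
  have h1 := GammaK_le G k
  have h2 := GammaK_le Gᶜ k
  rw [Fintype.card_fin] at h1 h2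
  exact Nat.mul_le_mul h1 h2

theorem le_g {n k : ℕ} {G : SimpleGraph (Fin n)} {X Y : Finset (Fin n)}
    (hX : IsKMinDom G k X) (hY : IsKMinDom Gᶜ k Y) : X.card * Y.card ≤ g n k :=
  le_trans (Nat.mul_le_mul (card_le_GammaK hX) (card_le_GammaK hY))
    (le_csSup (bdd_g n k) ⟨G, rfl⟩)

/-- To bound `g n k` it is enough to bound the product for all pairs. -/
theorem g_le {n k B : ℕ}
    (h : ∀ (G : SimpleGraph (Fin n)) (X Y : Finset (Fin n)),
      IsKMinDom G k X → IsKMinDom Gᶜ k Y → X.card * Y.card ≤ B) : g n k ≤ B := by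
  apply csSup_le'
  rintro m ⟨G, rfl⟩
  rcases GammaK_eq_zero_or G k with h0 | ⟨X, hX, hXc⟩
  · rw [h0]; simp
  rcases GammaK_eq_zero_or Gᶜ k with h0 | ⟨Y, hY, hYc⟩
  · rw [h0]; simp
  rw [← hXc, ← hYc]
  exact h G X Y hX hY

end basics

section transport

variable {V W : Type*} [DecidableEq V] [DecidableEq W]

omit [DecidableEq V] [DecidableEq W] in
theorem isDom_comap (e : W ≃ V) (G : SimpleGraph V) (S : Finset W) :
    IsDom (G.comap e) S ↔ IsDom G (S.map e.toEmbedding) := by
  constructor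
  · intro h v hv
    have hv' : e.symm v ∉ S := by
      intro h'
      apply hv
      rw [Finset.mem_map]
      exact ⟨e.symm v, h', by simp⟩
    obtain ⟨w, hw, hvw⟩ := h (e.symm v) hv'
    refine ⟨e w, by rw [Finset.mem_map]; exact ⟨w, hw, rfl⟩, ?_⟩
    simpa using hvw
  · intro h v hv
    have hv' : e v ∉ S.map e.toEmbedding := by
      intro h'
      rw [Finset.mem_map] at h'
      obtain ⟨u, hu, hue⟩ := h'
      have : u = v := e.injective hue
      exact hv (this ▸ hu)
    obtain ⟨w, hw, hvw⟩ := h (e v) hv'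
    rw [Finset.mem_map] at hw
    obtain ⟨u, hu, rfl⟩ := hw
    exact ⟨u, hu, hvw⟩

theorem isKMinDom_comap (e : W ≃ V) (G : SimpleGraph V) (k : ℕ) (X : Finset V)
    (hX : IsKMinDom G k X) : IsKMinDom (G.comap e) k (X.map e.symm.toEmbedding) := by
  have key : ∀ S : Finset V, (S.map e.symm.toEmbedding).map e.toEmbedding = S := by
    intro S
    ext v
    simp
  refine ⟨?_, ?_⟩
  · rw [isDom_comap, key]
    exact hX.1
  · intro l hl1 hlk U R hU hUc hRc hdom
    rw [isDom_comap] at hdom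
    refine hX.2 l hl1 hlk (U.map e.toEmbedding) (R.map e.toEmbedding) ?_ (by simpa using hUc)
      (by simpa using hRc) ?_
    · intro v hv
      rw [Finset.mem_map] at hv
      obtain ⟨u, hu, rfl⟩ := hv
      have := hU hu
      rw [Finset.mem_map] at this
      obtain ⟨x, hx, rfl⟩ := this
      simpa using hx
    · have : (X \ U.map e.toEmbedding) ∪ R.map e.toEmbedding
          = ((X.map e.symm.toEmbedding \ U) ∪ R).map e.toEmbedding := by
        ext v
        simp
      rw [this]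
      exact hdom

omit [DecidableEq V] [DecidableEq W] in
theorem compl_comap (e : W ≃ V) (G : SimpleGraph V) : (G.comap e)ᶜ = Gᶜ.comap e := by
  ext u v
  simp [SimpleGraph.compl_adj, SimpleGraph.comap_adj]

end transport

end Pool.Agent.R7.Dom
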