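import Pool.Agent.R7.Dom.Construct

/-! Existence of good patterns by counting. -/

namespace Pool.Agent.R7.Dom

open Finset

section counting

variable {s : ℕ}

theorem card_rows (D : Finset (Fin s)) (val : Bool) :
    (univ.filter (fun row : Fin s → Bool => ∀ f ∈ D, row f = val)).card = 2 ^ (s - D.card) := by
  classical
  have h1 : univ.filter (fun row : Fin s → Bool => ∀ f ∈ D, row f = val)
      = Fintype.piFinset (fun f => if f ∈ D then {val} else (univ : Finset Bool)) := by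
    ext row
    simp only [Finset.mem_filter, Finset.mem_univ, true_and, Fintype.mem_piFinset]
    constructor
    · intro h f
      by_cases hf : f ∈ D
      · simp [hf, h f hf]
      · simp [hf]
    · intro h f hf
      have := h f
      simpa [hf] using this
  rw [h1, Fintype.card_piFinset]
  have h2 : ∀ f : Fin s, (if f ∈ D then ({val} : Finset Bool) else univ).card
      = if f ∈ D then 1 else 2 := by
    intro f
    split_ifs <;> simp
  simp_rw [h2]
  rw [Finset.prod_ite, Finset.prod_const_one, Finset.prod_const, one_mul]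
  congr 1
  have h3 : univ.filter (fun f : Fin s => f ∉ D) = Dᶜ := by
    ext f; simp
  rw [h3, Finset.card_compl, Fintype.card_fin]

/-- Allowed rows for the bad events. -/
def Sset (p : ℕ) : (Fin p → Fin s) ⊕ Fin s → Finset (Fin s → Bool)
  | Sum.inl g => univ.filter (fun row => ∃ i, row (g i) = true)
  | Sum.inr f => univ.filter (fun row => row f = false)

theorem card_Sset (p : ℕ) (hp : 1 ≤ p) (idx : (Fin p → Fin s) ⊕ Fin s) :
    (Sset p idx).card ≤ 2 ^ s - 2 ^ (s - p) := by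
  classical
  have htot : Fintype.card (Fin s → Bool) = 2 ^ s := by simp
  rcases idx with g | f
  · have h1 := Finset.card_filter_add_card_filter_not (s := (univ : Finset (Fin s → Bool)))
      (fun row => ∃ i, row (g i) = true)
    rw [Finset.card_univ, htot] at h1
    have h2 : (univ.filter (fun row : Fin s → Bool => ∀ f ∈ univ.image g, row f = false))
        = univ.filter (fun row : Fin s → Bool => ¬ ∃ i, row (g i) = true) := by
      ext row
      simp
    have h3 := card_rows (univ.image g) false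
    rw [h2] at h3
    have h4 : (univ.image g).card ≤ p := by
      refine le_trans Finset.card_image_le ?_
      simp
    have h5 : 2 ^ (s - p) ≤ 2 ^ (s - (univ.image g).card) :=
      Nat.pow_le_pow_right (by norm_num) (by omega)
    show (univ.filter (fun row : Fin s → Bool => ∃ i, row (g i) = true)).card ≤ _
    omega
  · have h1 := Finset.card_filter_add_card_filter_not (s := (univ : Finset (Fin s → Bool)))
      (fun row => row f = false)
    rw [Finset.card_univ, htot] at h1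
    have h2 : (univ.filter (fun row : Fin s → Bool => ∀ f' ∈ ({f} : Finset (Fin s)), row f' = true))
        = univ.filter (fun row : Fin s → Bool => ¬ row f = false) := by
      ext row
      simp
    have h3 := card_rows ({f} : Finset (Fin s)) true
    rw [h2, Finset.card_singleton] at h3
    have h5 : 2 ^ (s - p) ≤ 2 ^ (s - 1) :=
      Nat.pow_le_pow_right (by norm_num) (by omega)
    show (univ.filter (fun row : Fin s → Bool => row f = false)).card ≤ _
    omega

/-- The bad event. -/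
def Bad (p : ℕ) (M : Fin s → Fin s → Bool) : Prop :=
  ∃ idx : (Fin p → Fin s) ⊕ Fin s, ∀ t, M t ∈ Sset p idx

open Classical in
theorem card_Bad (p : ℕ) (hp : 1 ≤ p) :
    (univ.filter (fun M : Fin s → Fin s → Bool => Bad p M)).card
      ≤ (s ^ p + s) * (2 ^ s - 2 ^ (s - p)) ^ s := by
  have hsub : univ.filter (fun M : Fin s → Fin s → Bool => Bad p M)
      ⊆ (univ : Finset ((Fin p → Fin s) ⊕ Fin s)).biUnion
        (fun idx => Fintype.piFinset (fun _ : Fin s => Sset p idx)) := by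
    intro M hM
    rw [Finset.mem_filter] at hM
    obtain ⟨idx, hidx⟩ := hM.2
    rw [Finset.mem_biUnion]
    exact ⟨idx, Finset.mem_univ _, Fintype.mem_piFinset.mpr hidx⟩
  calc _ ≤ _ := Finset.card_le_card hsub
    _ ≤ ∑ idx : (Fin p → Fin s) ⊕ Fin s,
          (Fintype.piFinset (fun _ : Fin s => Sset p idx)).card := Finset.card_biUnion_le
    _ ≤ ∑ idx : (Fin p → Fin s) ⊕ Fin s, (2 ^ s - 2 ^ (s - p)) ^ s := by
        apply Finset.sum_le_sum
        intro idx _
        rw [Fintype.card_piFinset, Finset.prod_const, Finset.card_univ, Fintype.card_fin]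
        exact Nat.pow_le_pow_left (card_Sset p hp idx) s
    _ = _ := by
        rw [Finset.sum_const, Finset.card_univ, smul_eq_mul]
        simp [Fintype.card_sum]

/-- The dual pattern. -/
def dual (M : Fin s → Fin s → Bool) : Fin s → Fin s → Bool := fun t f => !(M f t)

theorem dual_dual (M : Fin s → Fin s → Bool) : dual (dual M) = M := by
  funext t f
  simp [dual]

open Classical in
theorem exists_good (p : ℕ) (hp : 1 ≤ p)
    (h : 2 * ((s ^ p + s) * (2 ^ s - 2 ^ (s - p)) ^ s) < (2 ^ s) ^ s) :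
    ∃ M : Fin s → Fin s → Bool, ¬ Bad p M ∧ ¬ Bad p (dual M) := by
  by_contra hcon
  push Not at hcon
  have hcover : (univ : Finset (Fin s → Fin s → Bool))
      ⊆ univ.filter (fun M => Bad p M) ∪ (univ.filter (fun M => Bad p M)).image dual := by
    intro M _
    rw [Finset.mem_union]
    by_cases hM : Bad p M
    · left; simp [hM]
    · right
      rw [Finset.mem_image]
      exact ⟨dual M, by simp [hcon M hM], dual_dual M⟩
  have h1 := Finset.card_le_card hcover
  have h2 : (univ : Finset (Fin s → Fin s → Bool)).card = (2 ^ s) ^ s := by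
    rw [Finset.card_univ]; simp
  rw [h2] at h1
  have h3 := Finset.card_union_le (univ.filter (fun M : Fin s → Fin s → Bool => Bad p M))
    ((univ.filter (fun M : Fin s → Fin s → Bool => Bad p M)).image dual)
  have h4 : ((univ.filter (fun M : Fin s → Fin s → Bool => Bad p M)).image dual).card
      ≤ (univ.filter (fun M : Fin s → Fin s → Bool => Bad p M)).card := Finset.card_image_le
  have h5 := card_Bad (s := s) p hp
  omega

theorem exists_enum {p : ℕ} (hs : 0 < s) (C : Finset (Fin s)) (hC : C.card ≤ p) :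
    ∃ g : Fin p → Fin s, ∀ f ∈ C, ∃ i, g i = f := by
  refine ⟨fun i => if h : i.1 < C.card then (C.equivFin.symm ⟨i.1, h⟩ : Fin s) else ⟨0, hs⟩, ?_⟩
  intro f hf
  have hlt := (C.equivFin ⟨f, hf⟩).2
  refine ⟨⟨(C.equivFin ⟨f, hf⟩).1, lt_of_lt_of_le hlt hC⟩, ?_⟩
  simp [hlt]

theorem goodPattern_of {p : ℕ} (hs : 0 < s) {M : Fin s → Fin s → Bool}
    (h1 : ¬ Bad p M) (h2 : ¬ Bad p (dual M)) :
    GoodPattern p s s (fun t f => M t f = true) := by
  unfold Bad at h1 h2
  push Not at h1 h2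
  refine ⟨?_, ?_, ?_, ?_⟩
  · intro C hC
    obtain ⟨g, hg⟩ := exists_enum hs C hC
    obtain ⟨t, ht⟩ := h1 (Sum.inl g)
    simp only [Sset, Finset.mem_filter, Finset.mem_univ, true_and] at ht
    push Not at ht
    refine ⟨t, ?_⟩
    intro f hf
    obtain ⟨i, rfl⟩ := hg f hf
    simpa using ht i
  · intro T hT
    obtain ⟨g, hg⟩ := exists_enum hs T hT
    obtain ⟨f, hf⟩ := h2 (Sum.inl g)
    simp only [Sset, Finset.mem_filter, Finset.mem_univ, true_and, dual] at hf
    push Not at hf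
    refine ⟨f, ?_⟩
    intro t ht
    obtain ⟨i, rfl⟩ := hg t ht
    simpa using hf i
  · intro f
    obtain ⟨t, ht⟩ := h1 (Sum.inr f)
    simp only [Sset, Finset.mem_filter, Finset.mem_univ, true_and] at ht
    exact ⟨t, by simpa using ht⟩
  · intro t
    obtain ⟨f, hf⟩ := h2 (Sum.inr t)
    simp only [Sset, Finset.mem_filter, Finset.mem_univ, true_and, dual] at hf
    exact ⟨f, by simpa using hf⟩

end counting

theorem two_mul_pow_le (K : ℕ) (hK : 1 ≤ K) : 2 * K ^ (K + 1) ≤ (K + 1) ^ (K + 1) := by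
  have hK0 : (0 : ℝ) < K := by exact_mod_cast hK
  have h := one_add_mul_le_pow (a := (1 : ℝ) / K) (by
    have : (0 : ℝ) ≤ 1 / K := by positivity
    linarith) (K + 1)
  have h2 : (2 : ℝ) ≤ (1 + 1 / K) ^ (K + 1) := by
    refine le_trans ?_ h
    push_cast
    have : ((K : ℝ) + 1) * (1 / K) = 1 + 1 / K := by field_simp
    rw [this]
    have : (0 : ℝ) ≤ 1 / K := by positivity
    linarith
  have h3 : (2 : ℝ) * (K : ℝ) ^ (K + 1) ≤ ((K : ℝ) + 1) ^ (K + 1) := by
    have : ((K : ℝ) + 1) = K * (1 + 1 / K) := by field_simp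
    rw [this, mul_pow, mul_comm]
    exact mul_le_mul_of_nonneg_left h2 (by positivity)
  exact_mod_cast h3

theorem numeric (p : ℕ) (hp : 1 ≤ p) (s : ℕ) (hs : s = 2 ^ p * (8 * p ^ 2)) :
    2 * ((s ^ p + s) * (2 ^ s - 2 ^ (s - p)) ^ s) < (2 ^ s) ^ s := by
  have hp2 : p ≤ 2 ^ (p - 1) := by
    have : p - 1 < 2 ^ (p - 1) := Nat.lt_two_pow_self
    omega
  have hN2 : 2 ≤ 2 ^ p := by
    calc 2 = 2 ^ 1 := by norm_num
      _ ≤ 2 ^ p := Nat.pow_le_pow_right (by norm_num) hp
  have hppos : 1 ≤ p ^ 2 := Nat.one_le_pow _ _ hp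
  have hpp : p ≤ p ^ 2 := by nlinarith
  have hps : p ≤ s := by
    rw [hs]
    nlinarith
  have hs1 : 1 ≤ s := le_trans hp hps
  -- size of s
  have hs_le : s ≤ 2 ^ (3 * p + 1) := by
    have h1 : p ^ 2 ≤ (2 ^ (p - 1)) ^ 2 := Nat.pow_le_pow_left hp2 2
    have h2 : 8 * (2 ^ (p - 1)) ^ 2 = 2 ^ (2 * p + 1) := by
      obtain ⟨q, rfl⟩ : ∃ q, p = q + 1 := ⟨p - 1, by omega⟩
      have : 8 = 2 ^ 3 := by norm_num
      rw [this, ← pow_mul, ← pow_add]
      congr 1
      simp
      ring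
    calc s = 2 ^ p * (8 * p ^ 2) := hs
      _ ≤ 2 ^ p * (8 * (2 ^ (p - 1)) ^ 2) := by gcongr
      _ = 2 ^ p * 2 ^ (2 * p + 1) := by rw [h2]
      _ = 2 ^ (3 * p + 1) := by rw [← pow_add]; congr 1; ring
  have h4 : 2 * (s ^ p + s) < 2 ^ (8 * p ^ 2) := by
    have h5 : s ≤ s ^ p := by
      calc s = s ^ 1 := (pow_one s).symm
        _ ≤ s ^ p := Nat.pow_le_pow_right hs1 hp
    have h6 : s ^ p ≤ 2 ^ (3 * p ^ 2 + p) := by
      calc s ^ p ≤ (2 ^ (3 * p + 1)) ^ p := Nat.pow_le_pow_left hs_le p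
        _ = 2 ^ (3 * p ^ 2 + p) := by rw [← pow_mul]; congr 1; ring
    have h7 : 4 * 2 ^ (3 * p ^ 2 + p) = 2 ^ (3 * p ^ 2 + p + 2) := by
      rw [pow_add _ _ 2]; ring
    have h8 : 2 ^ (3 * p ^ 2 + p + 2) < 2 ^ (8 * p ^ 2) :=
      Nat.pow_lt_pow_right (by norm_num) (by nlinarith)
    omega
  have h9 : 2 ^ (8 * p ^ 2) * (2 ^ p - 1) ^ s ≤ (2 ^ p) ^ s := by
    obtain ⟨K, hK⟩ : ∃ K, 2 ^ p = K + 1 := ⟨2 ^ p - 1, by omega⟩
    have hK1 : 1 ≤ K := by omega
    have h10 := Nat.pow_le_pow_left (two_mul_pow_le K hK1) (8 * p ^ 2)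
    rw [mul_pow, ← pow_mul, ← pow_mul] at h10
    have h11 : (K + 1) * (8 * p ^ 2) = s := by rw [hs, hK]
    rw [h11] at h10
    rw [hK]
    simpa using h10
  have hB : 2 ^ s - 2 ^ (s - p) = 2 ^ (s - p) * (2 ^ p - 1) := by
    rw [Nat.mul_sub, mul_one, ← pow_add]
    congr 2
    omega
  have hss : (2 ^ s) ^ s = (2 ^ (s - p)) ^ s * (2 ^ p) ^ s := by
    rw [← mul_pow, ← pow_add]
    congr 2
    omega
  have hpos1 : 0 < (2 ^ p - 1) ^ s := Nat.pow_pos (by omega)
  have hpos2 : 0 < (2 ^ (s - p)) ^ s := by positivity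
  rw [hB, mul_pow, hss]
  calc 2 * ((s ^ p + s) * ((2 ^ (s - p)) ^ s * (2 ^ p - 1) ^ s))
      = (2 ^ (s - p)) ^ s * ((2 * (s ^ p + s)) * (2 ^ p - 1) ^ s) := by ring
    _ < (2 ^ (s - p)) ^ s * (2 ^ (8 * p ^ 2) * (2 ^ p - 1) ^ s) :=
        Nat.mul_lt_mul_of_pos_left (Nat.mul_lt_mul_of_pos_right h4 hpos1) hpos2
    _ ≤ _ := Nat.mul_le_mul_left _ h9

/-- Good patterns of size `8 p^2 2^p` exist. -/
theorem exists_goodPattern (p : ℕ) (hp : 1 ≤ p) :
    ∃ M : Fin (2 ^ p * (8 * p ^ 2)) → Fin (2 ^ p * (8 * p ^ 2)) → Prop,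
      GoodPattern p (2 ^ p * (8 * p ^ 2)) (2 ^ p * (8 * p ^ 2)) M := by
  have hs : 0 < 2 ^ p * (8 * p ^ 2) := by positivity
  obtain ⟨M, h1, h2⟩ := exists_good p hp (numeric p hp _ rfl)
  exact ⟨_, goodPattern_of hs h1 h2⟩

end Pool.Agent.R7.Dom
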