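import Pool.Agent.R7.Dom.Two
import Pool.Agent.R7.Dom.Construct

/-! `g(n,2) = n^2/16 + O(n^{7/4})`. -/

namespace Pool.Agent.R7.Dom

open Finset

section graph

variable {V : Type*} [Fintype V] [DecidableEq V]

/-- closed adjacency -/
def cl (G : SimpleGraph V) (v w : V) : Prop := v = w ∨ G.Adj v w

theorem pair_witness {G : SimpleGraph V} {X : Finset V} (hX : IsKMinDom G 2 X) {r x1 x2 : V}
    (h1 : x1 ∈ Zn (cl G) X r) (h2 : x2 ∈ Zn (cl G) X r) (hne : x1 ≠ x2) :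
    ∃ v, ∀ x ∈ X, (cl G v x ↔ x = x1 ∨ x = x2) := by
  classical
  rw [mem_Zn] at h1 h2
  have hnd := hX.2 2 (by norm_num) le_rfl {x1, x2} {r} (by
    intro w hw
    rw [Finset.mem_insert, Finset.mem_singleton] at hw
    rcases hw with rfl | rfl
    · exact h1.1
    · exact h2.1) (Finset.card_pair hne) (by simp)
  unfold IsDom at hnd
  push Not at hnd
  obtain ⟨v, hv, hv'⟩ := hnd
  rw [Finset.mem_union, not_or, Finset.mem_sdiff, Finset.mem_singleton] at hv
  have hother : ∀ x ∈ X, x ≠ x1 → x ≠ x2 → ¬ cl G v x := by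
    intro x hx hx1 hx2 hcl
    have hmem : x ∈ X \ {x1, x2} := by
      rw [Finset.mem_sdiff, Finset.mem_insert, Finset.mem_singleton, not_or]
      exact ⟨hx, hx1, hx2⟩
    rcases hcl with rfl | hcl
    · exact hv.1 (Finset.mem_sdiff.mp hmem)
    · exact hv' x (Finset.mem_union_left _ hmem) hcl
  have hr : ¬ cl G v r := by
    rintro (rfl | hcl)
    · exact hv.2 rfl
    · exact hv' r (Finset.mem_union_right _ (Finset.mem_singleton_self _)) hcl
  have hdom : ∃ x ∈ X, cl G v x := by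
    by_cases hvX : v ∈ X
    · exact ⟨v, hvX, Or.inl rfl⟩
    · obtain ⟨w, hw, hvw⟩ := hX.1 v hvX
      exact ⟨w, hw, Or.inr hvw⟩
  have hc1 : cl G v x1 := by
    by_contra hcon
    apply hr
    apply h2.2 v
    rw [mem_Pn]
    intro x hx
    constructor
    · intro hcl
      by_contra hxne
      by_cases hx1 : x = x1
      · subst hx1; exact hcon hcl
      · exact hother x hx hx1 hxne hcl
    · rintro rfl
      obtain ⟨y, hy, hyc⟩ := hdom
      by_cases hy1 : y = x1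
      · subst hy1; exact absurd hyc hcon
      · by_cases hy2 : y = x
        · subst hy2; exact hyc
        · exact absurd hyc (hother y hy hy1 hy2)
  have hc2 : cl G v x2 := by
    by_contra hcon
    apply hr
    apply h1.2 v
    rw [mem_Pn]
    intro x hx
    constructor
    · intro hcl
      by_contra hxne
      by_cases hx1 : x = x2
      · subst hx1; exact hcon hcl
      · exact hother x hx hxne hx1 hcl
    · rintro rfl
      obtain ⟨y, hy, hyc⟩ := hdom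
      by_cases hy1 : y = x2
      · subst hy1; exact absurd hyc hcon
      · by_cases hy2 : y = x
        · subst hy2; exact hyc
        · exact absurd hyc (hother y hy hy2 hy1)
  refine ⟨v, ?_⟩
  intro x hx
  constructor
  · intro hcl
    by_contra hcon
    rw [not_or] at hcon
    exact hother x hx hcon.1 hcon.2 hcl
  · rintro (rfl | rfl)
    · exact hc1
    · exact hc2

theorem card_Zn_le {G : SimpleGraph V} {X : Finset V} (hX : IsKMinDom G 2 X) (r : V) :
    (Zn (cl G) X r).card ≤ Nat.sqrt (2 * Fintype.card V + 1) + 1 := by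
  classical
  set Z := Zn (cl G) X r with hZ
  have hZX : Z ⊆ X := fun x hx => (mem_Zn.mp hx).1
  have hex : ∀ e ∈ Z.powersetCard 2, ∃ v : V, ∀ x ∈ X, (cl G v x ↔ x ∈ e) := by
    intro e he
    rw [Finset.mem_powersetCard, Finset.card_eq_two] at he
    obtain ⟨heZ, x1, x2, hne, rfl⟩ := he
    obtain ⟨v, hv⟩ := pair_witness hX (r := r) (x1 := x1) (x2 := x2) (heZ (by simp))
      (heZ (by simp)) hne
    exact ⟨v, fun x hx => by rw [hv x hx]; simp⟩
  have : Nonempty V := ⟨r⟩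
  choose! f hf using hex
  have hle : (Z.powersetCard 2).card ≤ (univ : Finset V).card := by
    refine Finset.card_le_card_of_injOn f (fun _ _ => Finset.mem_univ _) ?_
    intro e he e' he' hee
    have he1 := he
    have he1' := he'
    rw [Finset.mem_coe, Finset.mem_powersetCard] at he1 he1'
    ext x
    constructor
    · intro hx
      have hxX := hZX (he1.1 hx)
      rw [← hf e' he' x hxX, ← hee]
      exact (hf e he x hxX).mpr hx
    · intro hx
      have hxX := hZX (he1'.1 hx)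
      rw [← hf e he x hxX, hee]
      exact (hf e' he' x hxX).mpr hx
  rw [Finset.card_powersetCard, Finset.card_univ, Nat.choose_two_right] at hle
  set t := Z.card with ht
  have h2 : t * (t - 1) ≤ 2 * Fintype.card V + 1 := by
    have := Nat.div_add_mod (t * (t - 1)) 2
    have := Nat.mod_lt (t * (t - 1)) (by norm_num : 0 < 2)
    omega
  have h3 : (t - 1) * (t - 1) ≤ 2 * Fintype.card V + 1 :=
    le_trans (Nat.mul_le_mul_right _ (Nat.sub_le _ _)) h2
  have h4 : t - 1 ≤ Nat.sqrt (2 * Fintype.card V + 1) := Nat.le_sqrt.mpr h3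
  omega

theorem sys_of {G : SimpleGraph V} {X Y : Finset V} (hX : IsKMinDom G 2 X)
    (hY : IsKMinDom Gᶜ 2 Y) {z : ℕ} (hz : Nat.sqrt (2 * Fintype.card V + 1) + 1 ≤ z) :
    Sys (cl G) (cl Gᶜ) X Y z where
  symm := by
    rintro v w (rfl | h)
    · exact Or.inl rfl
    · exact Or.inr h.symm
  symm' := by
    rintro v w (rfl | h)
    · exact Or.inl rfl
    · exact Or.inr h.symm
  refl := fun v => Or.inl rfl
  refl' := fun v => Or.inl rfl
  compl := by
    intro v w hvw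
    unfold cl
    rw [SimpleGraph.compl_adj]
    tauto
  zb := fun r => le_trans (card_Zn_le hX r) hz
  zb' := fun r => le_trans (card_Zn_le hY r) hz

/-- Upper bound for `k = 2`. -/
theorem two_upper {G : SimpleGraph V} {X Y : Finset V} (hX : IsKMinDom G 2 X)
    (hY : IsKMinDom Gᶜ 2 Y) {K : ℕ} (hK : 1 ≤ K) (hn : Fintype.card V ≤ K ^ 4) :
    16 * (X.card * Y.card) ≤ (Fintype.card V + 30 * K ^ 3) ^ 2 + 80 * K ^ 3 * Fintype.card V := by
  classical
  set n := Fintype.card V with hnn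
  have hXn : X.card ≤ n := Finset.card_le_univ X
  have hYn : Y.card ≤ n := Finset.card_le_univ Y
  have hK2 : 1 ≤ K ^ 2 := Nat.one_le_pow _ _ hK
  have hK3 : 1 ≤ K ^ 3 := Nat.one_le_pow _ _ hK
  have hK23 : K ^ 2 ≤ K ^ 3 := Nat.pow_le_pow_right hK (by norm_num)
  have hz : Nat.sqrt (2 * n + 1) + 1 ≤ 2 * K ^ 2 + 1 := by
    have : Nat.sqrt (2 * n + 1) ≤ 2 * K ^ 2 := by
      rw [← Nat.lt_succ_iff, Nat.sqrt_lt]
      have h4 : K ^ 4 = K ^ 2 * K ^ 2 := by ring
      nlinarith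
    omega
  have S := sys_of hX hY hz
  set z := 2 * K ^ 2 + 1 with hzd
  by_cases ha : X.card ≤ 2 * K ^ 3 + z
  · have h1 : X.card ≤ 5 * K ^ 3 := by omega
    have h2 : X.card * Y.card ≤ 5 * K ^ 3 * n := Nat.mul_le_mul h1 hYn
    nlinarith [Nat.zero_le ((n + 30 * K ^ 3) ^ 2)]
  by_cases hb : Y.card ≤ 2 * K ^ 3 + z
  · have h1 : Y.card ≤ 5 * K ^ 3 := by omega
    have h2 : X.card * Y.card ≤ n * (5 * K ^ 3) := Nat.mul_le_mul hXn h1
    nlinarith [Nat.zero_le ((n + 30 * K ^ 3) ^ 2)]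
  push Not at ha hb
  have hcore := two_core S ha hb
  have hgX := card_not_Gd (R := cl G) (X := X) (T := K ^ 3) S.zb
  have hgY := card_not_Gd (R := cl Gᶜ) (X := Y) (T := K ^ 3) S.zb'
  rw [← hnn] at hcore hgX hgY
  have hnz : n * (z + 1) ≤ 4 * K ^ 3 * K ^ 3 := by
    calc n * (z + 1) ≤ K ^ 4 * (4 * K ^ 2) := Nat.mul_le_mul hn (by omega)
      _ = 4 * K ^ 3 * K ^ 3 := by ring
  have hX' : (X \ Gd (cl G) X (K ^ 3)).card ≤ 4 * K ^ 3 := by
    by_contra hcon
    push Not at hcon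
    have : 4 * K ^ 3 * K ^ 3 < (X \ Gd (cl G) X (K ^ 3)).card * (K ^ 3 + 1) := by nlinarith
    omega
  have hY' : (Y \ Gd (cl Gᶜ) Y (K ^ 3)).card ≤ 4 * K ^ 3 := by
    by_contra hcon
    push Not at hcon
    have : 4 * K ^ 3 * K ^ 3 < (Y \ Gd (cl Gᶜ) Y (K ^ 3)).card * (K ^ 3 + 1) := by nlinarith
    omega
  have hXX : X.card ≤ (X \ Gd (cl G) X (K ^ 3)).card + (Gd (cl G) X (K ^ 3)).card :=
    Finset.card_le_card_sdiff_add_card
  have hYY : Y.card ≤ (Y \ Gd (cl Gᶜ) Y (K ^ 3)).card + (Gd (cl Gᶜ) Y (K ^ 3)).card :=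
    Finset.card_le_card_sdiff_add_card
  have hfin : 2 * (X.card + Y.card) ≤ n + 30 * K ^ 3 := by omega
  have hsq : (2 * (X.card + Y.card)) ^ 2 ≤ (n + 30 * K ^ 3) ^ 2 := Nat.pow_le_pow_left hfin 2
  have h16 : 16 * (X.card * Y.card) ≤ (2 * (X.card + Y.card)) ^ 2 := by
    have : (0 : ℤ) ≤ ((X.card : ℤ) - Y.card) ^ 2 := sq_nonneg _
    zify
    nlinarith
  omega

end graph

theorem g2_upper (n K : ℕ) (hK : 1 ≤ K) (hn : n ≤ K ^ 4) :
    16 * g n 2 ≤ (n + 30 * K ^ 3) ^ 2 + 80 * K ^ 3 * n := by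
  have h : g n 2 ≤ ((n + 30 * K ^ 3) ^ 2 + 80 * K ^ 3 * n) / 16 := by
    apply g_le
    intro G X Y hX hY
    have := two_upper hX hY hK (by rw [Fintype.card_fin]; exact hn)
    rw [Fintype.card_fin] at this
    omega
  omega

theorem pattern2 : GoodPattern (2 - 1) 2 2 (fun t f => t = f) where
  zero := by decide
  one := by decide
  colOne := fun f => ⟨f, rfl⟩
  rowZero := by decide

theorem g2_lower (n a b : ℕ) (ha : 2 ≤ a) (hb : 2 ≤ b) (h : 2 * (a + b) ≤ n) :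
    a * b ≤ g n 2 :=
  g_lower_of_pattern pattern2 ha hb (by omega)

/-- The asymptotics of `g(n,2)`. -/
theorem g2_asymp (n : ℕ) (hn : 1 ≤ n) :
    |(g n 2 : ℝ) - (n : ℝ) ^ 2 / 16| ≤ 3670 * (n : ℝ) ^ ((7 : ℝ) / 4) := by
  have hn1 : (1 : ℝ) ≤ n := by exact_mod_cast hn
  have hn0 : (0 : ℝ) < n := by linarith
  set t : ℝ := (n : ℝ) ^ ((1 : ℝ) / 4) with ht
  have ht1 : 1 ≤ t := Real.one_le_rpow hn1 (by norm_num)
  have ht4 : t ^ 4 = n := by
    rw [ht, ← Real.rpow_natCast, ← Real.rpow_mul hn0.le]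
    norm_num
  have ht7 : (n : ℝ) ^ ((7 : ℝ) / 4) = t ^ 7 := by
    rw [ht, ← Real.rpow_natCast, ← Real.rpow_mul hn0.le]
    norm_num
  rw [ht7, abs_le]
  constructor
  · -- lower bound
    by_cases h8 : n < 8
    · have h8' : (n : ℝ) < 8 := by exact_mod_cast h8
      have hg : (0 : ℝ) ≤ g n 2 := by positivity
      have h7 : (1 : ℝ) ≤ t ^ 7 := one_le_pow₀ ht1
      nlinarith
    · push Not at h8
      have h := g2_lower n (n / 4) (n / 4) (by omega) (by omega) (by omega)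
      have hq : (n : ℝ) - 3 ≤ 4 * ((n / 4 : ℕ) : ℝ) := by
        have : n ≤ 4 * (n / 4) + 3 := by omega
        have : (n : ℝ) ≤ 4 * ((n / 4 : ℕ) : ℝ) + 3 := by exact_mod_cast this
        linarith
      have h8' : (8 : ℝ) ≤ n := by exact_mod_cast h8
      have h' : ((n / 4 : ℕ) : ℝ) * ((n / 4 : ℕ) : ℝ) ≤ g n 2 := by exact_mod_cast h
      have hsq : ((n : ℝ) - 3) * ((n : ℝ) - 3) ≤
          (4 * ((n / 4 : ℕ) : ℝ)) * (4 * ((n / 4 : ℕ) : ℝ)) :=
        mul_le_mul hq hq (by linarith) (by positivity)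
      have hnt : (n : ℝ) ≤ t ^ 7 := by
        rw [← ht4]
        exact pow_le_pow_right₀ ht1 (by norm_num)
      nlinarith
  · -- upper bound
    have hK := g2_upper n ⌈t⌉₊ (Nat.one_le_ceil_iff.mpr (by linarith)) (by
      have h1 : (n : ℝ) ≤ (⌈t⌉₊ : ℝ) ^ 4 := by
        rw [← ht4]
        exact pow_le_pow_left₀ (by linarith) (Nat.le_ceil t) 4
      exact_mod_cast h1)
    have hK' : 16 * (g n 2 : ℝ) ≤ ((n : ℝ) + 30 * (⌈t⌉₊ : ℝ) ^ 3) ^ 2
        + 80 * (⌈t⌉₊ : ℝ) ^ 3 * n := by exact_mod_cast hK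
    have hc : (⌈t⌉₊ : ℝ) ≤ 2 * t := by
      have := Nat.ceil_lt_add_one (show 0 ≤ t by linarith)
      linarith
    have hc3 : (⌈t⌉₊ : ℝ) ^ 3 ≤ 8 * t ^ 3 := by
      calc (⌈t⌉₊ : ℝ) ^ 3 ≤ (2 * t) ^ 3 := pow_le_pow_left₀ (by positivity) hc 3
        _ = 8 * t ^ 3 := by ring
    have h1 : ((n : ℝ) + 30 * (⌈t⌉₊ : ℝ) ^ 3) ^ 2 ≤ (t ^ 4 + 240 * t ^ 3) ^ 2 := by
      apply pow_le_pow_left₀ (by positivity)
      rw [← ht4]
      linarith
    have h2 : 80 * (⌈t⌉₊ : ℝ) ^ 3 * n ≤ 640 * t ^ 7 := by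
      rw [← ht4]
      have : 80 * (⌈t⌉₊ : ℝ) ^ 3 * t ^ 4 ≤ 80 * (8 * t ^ 3) * t ^ 4 := by gcongr
      calc _ ≤ _ := this
        _ = 640 * t ^ 7 := by ring
    have h3 : t ^ 6 ≤ t ^ 7 := pow_le_pow_right₀ ht1 (by norm_num)
    have h4 : (t ^ 4 + 240 * t ^ 3) ^ 2 = t ^ 8 + 480 * t ^ 7 + 57600 * t ^ 6 := by ring
    have h5 : (n : ℝ) ^ 2 = t ^ 8 := by rw [← ht4]; ring
    rw [h5]
    linarith

end Pool.Agent.R7.Dom
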