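import Pool.Agent.R7.Dom.Upper
import Pool.Agent.R7.Dom.Pattern
import Pool.Agent.R7.Dom.BCM
import Pool.Agent.R7.Dom.TwoGraph

/-! The combined bounds for `g(n,k)`. -/

namespace Pool.Agent.R7.Dom

open Finset

theorem le_g_self (n k : ℕ) (hn : 1 ≤ n) : n ≤ g n k := by
  have h1 : IsKMinDom (⊥ : SimpleGraph (Fin n)) k univ := by
    refine ⟨fun v hv => absurd (Finset.mem_univ v) hv, ?_⟩
    intro l hl1 hlk U R hU hUc hRc hdom
    have hex : ∃ v, v ∈ U ∧ v ∉ R := by
      by_contra hcon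
      push Not at hcon
      have := Finset.card_le_card (show U ⊆ R from hcon)
      omega
    obtain ⟨v, hvU, hvR⟩ := hex
    obtain ⟨w, _, hw⟩ := hdom v (by
      rw [Finset.mem_union, not_or, Finset.mem_sdiff]
      exact ⟨fun h => h.2 hvU, hvR⟩)
    simp at hw
  have h2 : IsKMinDom (⊥ : SimpleGraph (Fin n))ᶜ k {⟨0, hn⟩} := by
    refine ⟨?_, ?_⟩
    · intro v hv
      refine ⟨⟨0, hn⟩, by simp, ?_⟩
      rw [SimpleGraph.compl_adj]
      refine ⟨?_, by simp⟩
      rintro rfl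
      simp at hv
    · intro l hl1 hlk U R hU hUc hRc hdom
      have hUle := Finset.card_le_card hU
      rw [Finset.card_singleton] at hUle
      have hl : l = 1 := by omega
      subst hl
      have hU' : U = {⟨0, hn⟩} := Finset.eq_of_subset_of_card_le hU (by simp [hUc])
      have hR' : R = ∅ := by
        rw [← Finset.card_eq_zero]; omega
      subst hU' hR'
      obtain ⟨w, hw, _⟩ := hdom ⟨0, hn⟩ (by simp)
      simp at hw
  have := le_g h1 h2
  simpa using this

/-- If the product exceeds `n`, both sets have size at most `n / k`. -/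
theorem mul_k_le {V : Type*} [Fintype V] [DecidableEq V] {G : SimpleGraph V} {X Y : Finset V}
    {k : ℕ} (hk : 2 ≤ k) (hX : IsKMinDom G k X) (hY : IsKMinDom Gᶜ k Y)
    (hYk : k ≤ Y.card) : X.card * k ≤ Fintype.card V := by
  apply bcm (hX.mono hk)
  intro D hD
  by_contra hcon
  push Not at hcon
  obtain ⟨U, hU, hUc⟩ := Finset.exists_subset_card_eq (s := Y) (n := D.card + 1) (by omega)
  exact hY.2 (D.card + 1) (by omega) (by omega) U D hU hUc (by omega)
    (hD.mono Finset.subset_union_right)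

theorem prod_cases {V : Type*} [Fintype V] [DecidableEq V] {G : SimpleGraph V} {X Y : Finset V}
    {k : ℕ} (hk : 2 ≤ k) (hX : IsKMinDom G k X) (hY : IsKMinDom Gᶜ k Y) :
    X.card * Y.card ≤ Fintype.card V ∨
      (k ^ 2 * (X.card * Y.card) ≤ (Fintype.card V) ^ 2 ∧
        4 ^ k * (X.card * Y.card) ≤ 16 * k ^ 2 * (Fintype.card V) ^ 2) := by
  by_cases h : X.card * Y.card ≤ Fintype.card V
  · exact Or.inl h
  push Not at h
  right
  obtain ⟨ha, hb⟩ := both_large hk hX hY h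
  have hcore := core_upper hk hX hY
  have h1 := mul_k_le hk hX hY hb
  have h2 := mul_k_le (G := Gᶜ) hk hY (by rw [compl_compl]; exact hX) ha
  set n := Fintype.card V with hn
  have hk0 : 0 < k := by omega
  refine ⟨?_, ?_⟩
  · calc k ^ 2 * (X.card * Y.card) = (X.card * k) * (Y.card * k) := by ring
      _ ≤ n * n := Nat.mul_le_mul h1 h2
      _ = n ^ 2 := by ring
  · have hmX : 1 ≤ X.card / k := (Nat.one_le_div_iff hk0).mpr ha
    have hmY : 1 ≤ Y.card / k := (Nat.one_le_div_iff hk0).mpr hb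
    have hXk : X.card < k * (X.card / k) + k := by
      have := Nat.div_add_mod X.card k
      have := Nat.mod_lt X.card hk0
      omega
    have hYk : Y.card < k * (Y.card / k) + k := by
      have := Nat.div_add_mod Y.card k
      have := Nat.mod_lt Y.card hk0
      omega
    have h1 : X.card ≤ 2 * k * (X.card / k) := by nlinarith
    have h2 : Y.card ≤ 2 * k * (Y.card / k) := by nlinarith
    have h4 : 4 ^ k = 4 * 4 ^ (k - 1) := by
      rw [← pow_succ']
      congr 1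
      omega
    calc 4 ^ k * (X.card * Y.card)
        ≤ 4 ^ k * ((2 * k * (X.card / k)) * (2 * k * (Y.card / k))) :=
          Nat.mul_le_mul_left _ (Nat.mul_le_mul h1 h2)
      _ = 16 * k ^ 2 * ((X.card / k) * (Y.card / k) * 4 ^ (k - 1)) := by rw [h4]; ring
      _ ≤ 16 * k ^ 2 * n ^ 2 := Nat.mul_le_mul_left _ hcore

theorem g_le_or (n k : ℕ) (hk : 2 ≤ k) :
    g n k ≤ n ∨ (k ^ 2 * g n k ≤ n ^ 2 ∧ 4 ^ k * g n k ≤ 16 * k ^ 2 * n ^ 2) := by
  have h : g n k ≤ max n (min (n ^ 2 / k ^ 2) (16 * k ^ 2 * n ^ 2 / 4 ^ k)) := by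
    apply g_le
    intro G X Y hX hY
    have := prod_cases hk hX hY
    rw [Fintype.card_fin] at this
    rcases this with h | ⟨h1, h2⟩
    · exact le_max_of_le_left h
    · apply le_max_of_le_right
      rw [le_min_iff]
      constructor
      · rw [Nat.le_div_iff_mul_le (by positivity), mul_comm]
        exact h1
      · rw [Nat.le_div_iff_mul_le (by positivity), mul_comm]
        exact h2
  rcases le_max_iff.mp h with h | h
  · exact Or.inl h
  · right
    rw [le_min_iff] at h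
    constructor
    · rw [mul_comm, ← Nat.le_div_iff_mul_le (by positivity)]
      exact h.1
    · rw [mul_comm, ← Nat.le_div_iff_mul_le (by positivity)]
      exact h.2

/-- The exact value for small `n`. -/
theorem g_eq (n k : ℕ) (hk : 2 ≤ k) (hn : 1 ≤ n) (h : n ≤ k ^ 2 ∨ 16 * k ^ 2 * n ≤ 4 ^ k) :
    g n k = n := by
  apply le_antisymm _ (le_g_self n k hn)
  rcases g_le_or n k hk with h' | ⟨h1, h2⟩
  · exact h'
  · rcases h with h | h
    · have : k ^ 2 * g n k ≤ k ^ 2 * n := by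
        calc k ^ 2 * g n k ≤ n ^ 2 := h1
          _ = n * n := by ring
          _ ≤ k ^ 2 * n := Nat.mul_le_mul_right _ h
      exact Nat.le_of_mul_le_mul_left this (by positivity)
    · have : 4 ^ k * g n k ≤ 4 ^ k * n := by
        calc 4 ^ k * g n k ≤ 16 * k ^ 2 * n ^ 2 := h2
          _ = (16 * k ^ 2 * n) * n := by ring
          _ ≤ 4 ^ k * n := Nat.mul_le_mul_right _ h
      exact Nat.le_of_mul_le_mul_left this (by positivity)

/-- The lower bound. -/
theorem g_lower (n k : ℕ) (hk : 2 ≤ k) (hn : 32 * k ^ 4 * 4 ^ k ≤ n) :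
    n ^ 2 ≤ 256 * k ^ 4 * 4 ^ k * g n k := by
  obtain ⟨M, hM⟩ := exists_goodPattern (k - 1) (by omega)
  set s := 2 ^ (k - 1) * (8 * (k - 1) ^ 2) with hs
  have h2k : 2 ^ k = 2 * 2 ^ (k - 1) := by
    rw [← pow_succ']
    congr 1
    omega
  have h4k : 4 ^ k = 2 ^ k * 2 ^ k := by
    rw [← mul_pow]
    norm_num
  have hk1 : (k - 1) ^ 2 ≤ k ^ 2 := Nat.pow_le_pow_left (Nat.sub_le _ _) 2
  have hk1' : 1 ≤ (k - 1) ^ 2 := Nat.one_le_pow _ _ (by omega)
  have hs_le : s ≤ 4 * k ^ 2 * 2 ^ k := by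
    rw [hs, h2k]
    calc 2 ^ (k - 1) * (8 * (k - 1) ^ 2) ≤ 2 ^ (k - 1) * (8 * k ^ 2) := by gcongr
      _ = 4 * k ^ 2 * (2 * 2 ^ (k - 1)) := by ring
  have hs_pos : 0 < s := by rw [hs]; positivity
  have hss : s * s ≤ 16 * k ^ 4 * 4 ^ k := by
    calc s * s ≤ (4 * k ^ 2 * 2 ^ k) * (4 * k ^ 2 * 2 ^ k) := Nat.mul_le_mul hs_le hs_le
      _ = 16 * k ^ 4 * (2 ^ k * 2 ^ k) := by ring
      _ = 16 * k ^ 4 * 4 ^ k := by rw [h4k]
  have hn2 : 2 * s * s ≤ n := by nlinarith
  set a := n / (2 * s) with ha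
  have hsa : s ≤ a := by
    rw [ha, Nat.le_div_iff_mul_le (by positivity)]
    calc s * (2 * s) = 2 * s * s := by ring
      _ ≤ n := hn2
  have hle : a * s + a * s ≤ n := by
    calc a * s + a * s = a * (2 * s) := by ring
      _ ≤ n := Nat.div_mul_le_self _ _
  have hlow := g_lower_of_pattern hM hsa hsa hle
  have hn4 : n ≤ 4 * s * a := by
    have h1 := Nat.div_add_mod n (2 * s)
    have h2 := Nat.mod_lt n (show 0 < 2 * s by positivity)
    have h3 : 1 ≤ a := le_trans hs_pos hsa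
    rw [← ha] at h1
    nlinarith
  calc n ^ 2 ≤ (4 * s * a) ^ 2 := Nat.pow_le_pow_left hn4 2
    _ = 16 * (s * s) * (a * a) := by ring
    _ ≤ 16 * (16 * k ^ 4 * 4 ^ k) * g n k := by gcongr
    _ = _ := by ring

theorem lt_g (n k : ℕ) (hk : 2 ≤ k) (hn : 256 * k ^ 4 * 4 ^ k < n) : n < g n k := by
  have h := g_lower n k hk (by nlinarith [Nat.zero_le (k ^ 4 * 4 ^ k)])
  by_contra hcon
  push Not at hcon
  have h1 : n ^ 2 ≤ 256 * k ^ 4 * 4 ^ k * n := le_trans h (Nat.mul_le_mul_left _ hcon)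
  have h2 : 256 * k ^ 4 * 4 ^ k * n < n * n := Nat.mul_lt_mul_of_pos_right hn (by omega)
  nlinarith

/-- The upper bound for large `n`. -/
theorem g_upper_large (n k : ℕ) (hk : 2 ≤ k) (hn : 4 ^ k ≤ n) :
    4 ^ k * g n k ≤ 16 * k ^ 2 * n ^ 2 := by
  rcases g_le_or n k hk with h | ⟨_, h⟩
  · calc 4 ^ k * g n k ≤ n * n := Nat.mul_le_mul hn h
      _ = 1 * n ^ 2 := by ring
      _ ≤ 16 * k ^ 2 * n ^ 2 := Nat.mul_le_mul_right _ (by
          have : 1 ≤ k ^ 2 := Nat.one_le_pow _ _ (by omega)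
          omega)
  · exact h

end Pool.Agent.R7.Dom
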