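import Pool.Agent.R7.Dom.Defs

/-! The asymptotic upper bound for `k = 2`: `2|X| + 2|Y| ≤ n + o(n)`. -/

namespace Pool.Agent.R7.Dom

open Finset

section sys

variable {V : Type*} [Fintype V] [DecidableEq V]

open Classical in
/-- Private vertices of `x`. -/
noncomputable def Pn (R : V → V → Prop) (X : Finset V) (x : V) : Finset V :=
  univ.filter (fun v => ∀ x' ∈ X, (R v x' ↔ x' = x))

open Classical in
/-- The vertices which dominate all the private vertices of `x`. -/
noncomputable def un (R : V → V → Prop) (X : Finset V) (x : V) : Finset V :=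
  univ.filter (fun r => ∀ v ∈ Pn R X x, R v r)

open Classical in
/-- The `x` all of whose private vertices are dominated by `r`. -/
noncomputable def Zn (R : V → V → Prop) (X : Finset V) (r : V) : Finset V :=
  X.filter (fun x => ∀ v ∈ Pn R X x, R v r)

/-- All private vertices. -/
noncomputable def Ln (R : V → V → Prop) (X : Finset V) : Finset V := X.biUnion (Pn R X)

open Classical in
/-- Good elements. -/
noncomputable def Gd (R : V → V → Prop) (X : Finset V) (T : ℕ) : Finset V :=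
  X.filter (fun x => (un R X x).card ≤ T ∧ (Pn R X x).card ≤ T)

theorem mem_Pn {R : V → V → Prop} {X : Finset V} {x v : V} :
    v ∈ Pn R X x ↔ ∀ x' ∈ X, (R v x' ↔ x' = x) := by
  unfold Pn; simp

theorem mem_un {R : V → V → Prop} {X : Finset V} {x r : V} :
    r ∈ un R X x ↔ ∀ v ∈ Pn R X x, R v r := by
  unfold un; simp

theorem mem_Zn {R : V → V → Prop} {X : Finset V} {x r : V} :
    x ∈ Zn R X r ↔ x ∈ X ∧ ∀ v ∈ Pn R X x, R v r := by
  unfold Zn; simp

theorem mem_Ln {R : V → V → Prop} {X : Finset V} {v : V} :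
    v ∈ Ln R X ↔ ∃ x ∈ X, v ∈ Pn R X x := by
  unfold Ln; simp

theorem mem_Gd {R : V → V → Prop} {X : Finset V} {T : ℕ} {x : V} :
    x ∈ Gd R X T ↔ x ∈ X ∧ (un R X x).card ≤ T ∧ (Pn R X x).card ≤ T := by
  unfold Gd; simp

theorem Pn_inj {R : V → V → Prop} {X : Finset V} {x x' v : V} (hx : x ∈ X)
    (h : v ∈ Pn R X x) (h' : v ∈ Pn R X x') : x = x' := by
  rw [mem_Pn] at h h'
  exact (h' x hx).mp ((h x hx).mpr rfl)

theorem Pn_disj {R : V → V → Prop} {X : Finset V} {x x' : V} (hx : x ∈ X) (hne : x ≠ x') :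
    Disjoint (Pn R X x) (Pn R X x') := by
  rw [Finset.disjoint_left]
  intro v h h'
  exact hne (Pn_inj hx h h')

/-- The two-sided system. -/
structure Sys (R R' : V → V → Prop) (X Y : Finset V) (z : ℕ) : Prop where
  symm : ∀ v w, R v w → R w v
  symm' : ∀ v w, R' v w → R' w v
  refl : ∀ v, R v v
  refl' : ∀ v, R' v v
  compl : ∀ v w, v ≠ w → (R' v w ↔ ¬ R v w)
  zb : ∀ r, (Zn R X r).card ≤ z
  zb' : ∀ r, (Zn R' Y r).card ≤ z

theorem Sys.swap {R R' : V → V → Prop} {X Y : Finset V} {z : ℕ} (S : Sys R R' X Y z) :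
    Sys R' R Y X z where
  symm := S.symm'
  symm' := S.symm
  refl := S.refl'
  refl' := S.refl
  compl := fun v w h => by
    have := S.compl v w h
    tauto
  zb := S.zb'
  zb' := S.zb

/-- A set hitting the private sets of all elements of `A ⊆ X` has at least `|A|` elements. -/
theorem card_le_of_hit {R : V → V → Prop} {X A W : Finset V} (hA : A ⊆ X)
    (h : ∀ x ∈ A, ∃ v ∈ W, v ∈ Pn R X x) : A.card ≤ W.card := by
  classical
  choose! f hf hf' using h
  refine Finset.card_le_card_of_injOn f hf ?_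
  intro x hx y hy hxy
  have h1 := hf' x hx
  have h2 := hf' y hy
  rw [hxy] at h1
  exact Pn_inj (hA hx) h1 h2

theorem sum_un {R : V → V → Prop} {X : Finset V} :
    ∑ x ∈ X, (un R X x).card = ∑ r : V, (Zn R X r).card := by
  classical
  have := Finset.sum_card_bipartiteAbove_eq_sum_card_bipartiteBelow (s := X)
    (t := (univ : Finset V)) (fun x r => ∀ v ∈ Pn R X x, R v r)
  unfold Finset.bipartiteAbove Finset.bipartiteBelow at this
  unfold un Zn
  convert this using 2

theorem sum_Pn_le {R : V → V → Prop} {X : Finset V} :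
    ∑ x ∈ X, (Pn R X x).card ≤ Fintype.card V := by
  classical
  rw [← Finset.card_biUnion]
  · exact Finset.card_le_univ _
  · intro x hx y hy hxy
    exact Pn_disj hx hxy

theorem card_not_Gd {R : V → V → Prop} {X : Finset V} {z T : ℕ}
    (hz : ∀ r, (Zn R X r).card ≤ z) :
    (X \ Gd R X T).card * (T + 1) ≤ Fintype.card V * (z + 1) := by
  classical
  have h1 : (X \ Gd R X T).card * (T + 1)
      ≤ ∑ x ∈ X \ Gd R X T, ((un R X x).card + (Pn R X x).card) := by
    rw [← smul_eq_mul]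
    apply Finset.card_nsmul_le_sum
    intro x hx
    rw [Finset.mem_sdiff, mem_Gd] at hx
    obtain ⟨hxX, hx⟩ := hx
    by_contra hcon
    exact hx ⟨hxX, by omega, by omega⟩
  have h2 : ∑ x ∈ X \ Gd R X T, ((un R X x).card + (Pn R X x).card)
      ≤ ∑ x ∈ X, ((un R X x).card + (Pn R X x).card) :=
    Finset.sum_le_sum_of_subset Finset.sdiff_subset
  have h3 : ∑ r : V, (Zn R X r).card ≤ Fintype.card V * z := by
    calc ∑ r : V, (Zn R X r).card ≤ ∑ _r : V, z := Finset.sum_le_sum (fun r _ => hz r)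
      _ = _ := by rw [Finset.sum_const, Finset.card_univ, smul_eq_mul]
  have h5 : ∑ x ∈ X, ((un R X x).card + (Pn R X x).card)
      = ∑ r : V, (Zn R X r).card + ∑ x ∈ X, (Pn R X x).card := by
    rw [Finset.sum_add_distrib, sum_un]
  have h4 := sum_Pn_le (R := R) (X := X)
  calc _ ≤ _ := h1
    _ ≤ _ := h2
    _ = _ := h5
    _ ≤ Fintype.card V * z + Fintype.card V := Nat.add_le_add h3 h4
    _ = _ := by ring

variable {R R' : V → V → Prop} {X Y : Finset V} {z T : ℕ}

/-- Good elements have at least two private vertices. -/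
theorem two_le_Pn (S : Sys R R' X Y z) (hb : 2 * T + z < Y.card) {x : V}
    (hx : x ∈ Gd R X T) : 2 ≤ (Pn R X x).card := by
  classical
  rw [mem_Gd] at hx
  obtain ⟨hxX, hu, hP⟩ := hx
  by_contra hcon
  have hc : (Pn R X x).card = 0 ∨ (Pn R X x).card = 1 := by omega
  rcases hc with hc | hc
  · rw [Finset.card_eq_zero] at hc
    have : un R X x = univ := by
      ext r
      rw [mem_un, hc]
      simp
    rw [this, Finset.card_univ] at hu
    have := Finset.card_le_univ Y
    omega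
  · rw [Finset.card_eq_one] at hc
    obtain ⟨p, hp⟩ := hc
    have hhit : (Y \ Zn R' Y p).card ≤ (un R X x).card := by
      apply card_le_of_hit (R := R') (X := Y) Finset.sdiff_subset
      intro y hy
      rw [Finset.mem_sdiff, mem_Zn] at hy
      obtain ⟨hyY, hy⟩ := hy
      push Not at hy
      obtain ⟨v, hv, hvp⟩ := hy hyY
      refine ⟨v, ?_, hv⟩
      rw [mem_un, hp]
      intro w hw
      rw [Finset.mem_singleton] at hw
      subst hw
      have hne : v ≠ w := by
        rintro rfl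
        exact hvp (S.refl' _)
      by_contra hR
      apply hvp
      rw [S.compl v w hne]
      exact fun h => hR (S.symm _ _ h)
    have h1 := S.zb' p
    have h2 : Y.card ≤ (Y \ Zn R' Y p).card + (Zn R' Y p).card :=
      Finset.card_le_card_sdiff_add_card
    omega

/-- Most of `Y` is not dominated by the private vertices of `x` outside the overlap. -/
theorem card_D_le (S : Sys R R' X Y z) {x : V} (hx : x ∈ Gd R X T) [DecidablePred
    (fun y => ∀ v ∈ Pn R X x \ (Ln R X ∩ Ln R' Y), R v y)] :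
    (Y.filter (fun y => ∀ v ∈ Pn R X x \ (Ln R X ∩ Ln R' Y), R v y)).card ≤ 2 * T := by
  classical
  rw [mem_Gd] at hx
  obtain ⟨hxX, hu, hP⟩ := hx
  set D := Y.filter (fun y => ∀ v ∈ Pn R X x \ (Ln R X ∩ Ln R' Y), R v y) with hD
  have h1 : (D \ un R X x).card ≤ (Pn R X x).card := by
    apply card_le_of_hit (R := R') (X := Y)
    · intro y hy
      rw [Finset.mem_sdiff, hD, Finset.mem_filter] at hy
      exact hy.1.1
    · intro y hy
      rw [Finset.mem_sdiff, hD, Finset.mem_filter, mem_un] at hy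
      obtain ⟨⟨hyY, hyD⟩, hyu⟩ := hy
      push Not at hyu
      obtain ⟨v, hv, hvy⟩ := hyu
      refine ⟨v, hv, ?_⟩
      have hvO : v ∈ Ln R X ∩ Ln R' Y := by
        by_contra hcon
        exact hvy (hyD v (Finset.mem_sdiff.mpr ⟨hv, hcon⟩))
      rw [Finset.mem_inter, mem_Ln, mem_Ln] at hvO
      obtain ⟨y', hy', hvy'⟩ := hvO.2
      have : R' v y := by
        by_contra hcon
        have hne : v ≠ y := by
          rintro rfl
          exact hvy (S.refl _)
        rw [S.compl v y hne] at hcon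
        exact hcon hvy
      have he : y = y' := (mem_Pn.mp hvy' y hyY).mp this
      rw [he]
      exact hvy'
  have h2 : D.card ≤ (D \ un R X x).card + (un R X x).card :=
    Finset.card_le_card_sdiff_add_card
  omega

theorem Pn_sdiff_nonempty (S : Sys R R' X Y z) (hb : 2 * T + z < Y.card) {x : V}
    (hx : x ∈ Gd R X T) : (Pn R X x \ (Ln R X ∩ Ln R' Y)).Nonempty := by
  classical
  by_contra hcon
  rw [Finset.not_nonempty_iff_eq_empty] at hcon
  have h := card_D_le S hx
  have : Y.filter (fun y => ∀ v ∈ Pn R X x \ (Ln R X ∩ Ln R' Y), R v y) = Y := by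
    apply Finset.filter_true_of_mem
    intro y _ v hv
    rw [hcon] at hv
    simp at hv
  rw [this] at h
  omega

theorem sum_Gd_le (O : Finset V) :
    ∑ x ∈ Gd R X T, (Pn R X x \ O).card ≤ (Ln R X \ O).card := by
  classical
  rw [← Finset.card_biUnion]
  · apply Finset.card_le_card
    intro v hv
    rw [Finset.mem_biUnion] at hv
    obtain ⟨x, hx, hv⟩ := hv
    rw [Finset.mem_sdiff] at hv ⊢
    exact ⟨mem_Ln.mpr ⟨x, (mem_Gd.mp hx).1, hv.1⟩, hv.2⟩
  · intro x hx y hy hxy
    exact Disjoint.mono Finset.sdiff_subset Finset.sdiff_subset (Pn_disj (mem_Gd.mp hx).1 hxy)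

theorem two_mul_Gd_le_Ln (S : Sys R R' X Y z) (hb : 2 * T + z < Y.card) :
    2 * (Gd R X T).card ≤ (Ln R X).card := by
  classical
  have h := sum_Gd_le (R := R) (X := X) (T := T) ∅
  simp only [Finset.sdiff_empty] at h
  refine le_trans ?_ h
  rw [mul_comm, ← smul_eq_mul]
  apply Finset.card_nsmul_le_sum
  intro x hx
  exact two_le_Pn S hb hx

/-- Case A. -/
theorem caseA (S : Sys R R' X Y z) (ha : 2 * T + z < X.card)
    (h : ∀ x ∈ Gd R X T, 2 ≤ (Pn R X x \ (Ln R X ∩ Ln R' Y)).card) :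
    2 * (Gd R X T).card + 2 * (Gd R' Y T).card ≤ Fintype.card V := by
  classical
  have h1 : 2 * (Gd R X T).card ≤ (Ln R X \ (Ln R X ∩ Ln R' Y)).card := by
    refine le_trans ?_ (sum_Gd_le (R := R) (X := X) (T := T) (Ln R X ∩ Ln R' Y))
    rw [mul_comm, ← smul_eq_mul]
    exact Finset.card_nsmul_le_sum _ _ _ h
  have h2 := two_mul_Gd_le_Ln (T := T) S.swap ha
  have h3 : Disjoint (Ln R X \ (Ln R X ∩ Ln R' Y)) (Ln R' Y) := by
    rw [Finset.disjoint_left]
    intro v hv hv'
    rw [Finset.mem_sdiff, Finset.mem_inter] at hv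
    exact hv.2 ⟨hv.1, hv'⟩
  have h4 := Finset.card_le_univ ((Ln R X \ (Ln R X ∩ Ln R' Y)) ∪ Ln R' Y)
  rw [Finset.card_union_of_disjoint h3] at h4
  omega

/-- Case C(i). -/
theorem caseCi (S : Sys R R' X Y z) (ha : 2 * T + z < X.card) (hb : 2 * T + z < Y.card)
    {x0 : V} (hx0 : x0 ∈ Gd R X T) (hx1 : (Pn R X x0 \ (Ln R X ∩ Ln R' Y)).card < 2)
    (hx2 : x0 ∈ Pn R X x0 \ (Ln R X ∩ Ln R' Y))
    {y0 : V} (hy0 : y0 ∈ Gd R' Y T) (hy1 : (Pn R' Y y0 \ (Ln R X ∩ Ln R' Y)).card < 2) :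
    2 * X.card + 2 * Y.card ≤ Fintype.card V + 2 * z + 5 * T + 3 := by
  classical
  set O := Ln R X ∩ Ln R' Y with hO
  have hxs : Pn R X x0 \ O = {x0} := by
    have : (Pn R X x0 \ O).card = 1 := by
      have := Finset.card_pos.mpr ⟨x0, hx2⟩
      omega
    rw [Finset.card_eq_one] at this
    obtain ⟨w, hw⟩ := this
    rw [hw] at hx2 ⊢
    rw [Finset.mem_singleton] at hx2
    rw [hx2]
  have hOO : Ln R' Y ∩ Ln R X = O := by rw [hO, Finset.inter_comm]
  obtain ⟨u, hus⟩ : ∃ u, Pn R' Y y0 \ O = {u} := by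
    have h1 := Pn_sdiff_nonempty S.swap ha hy0
    rw [hOO] at h1
    have : (Pn R' Y y0 \ O).card = 1 := by
      have := Finset.card_pos.mpr h1
      omega
    exact Finset.card_eq_one.mp this
  have hx0X : x0 ∈ X := (mem_Gd.mp hx0).1
  have hy0Y : y0 ∈ Y := (mem_Gd.mp hy0).1
  have hx0P : x0 ∈ Pn R X x0 := (Finset.mem_sdiff.mp hx2).1
  have huP : u ∈ Pn R' Y y0 := by
    have : u ∈ Pn R' Y y0 \ O := by rw [hus]; simp
    exact (Finset.mem_sdiff.mp this).1
  -- the exceptional sets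
  have hD1 : (Y.filter (fun y => R x0 y)).card ≤ 2 * T := by
    have h := card_D_le S hx0
    rw [← hO, hxs] at h
    simpa using h
  have hD2 : (X.filter (fun x => R' u x)).card ≤ 2 * T := by
    have h := card_D_le S.swap hy0
    rw [hOO, hus] at h
    simpa using h
  -- the sets `Tset`, `Tset'`
  set A := (Ln R X).filter (fun v => ¬ R v u) with hA
  set B := (Ln R' Y).filter (fun v => ¬ R' v x0) with hB
  have hAcard : X.card ≤ A.card + z := by
    have h1 : (X \ Zn R X u).card ≤ A.card := by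
      apply card_le_of_hit (R := R) (X := X) Finset.sdiff_subset
      intro x hx
      rw [Finset.mem_sdiff, mem_Zn] at hx
      obtain ⟨hxX, hx⟩ := hx
      push Not at hx
      obtain ⟨v, hv, hvu⟩ := hx hxX
      refine ⟨v, ?_, hv⟩
      rw [hA, Finset.mem_filter, mem_Ln]
      exact ⟨⟨x, hxX, hv⟩, hvu⟩
    have h2 := S.zb u
    have h3 : X.card ≤ (X \ Zn R X u).card + (Zn R X u).card :=
      Finset.card_le_card_sdiff_add_card
    omega
  have hBcard : Y.card ≤ B.card + z := by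
    have h1 : (Y \ Zn R' Y x0).card ≤ B.card := by
      apply card_le_of_hit (R := R') (X := Y) Finset.sdiff_subset
      intro x hx
      rw [Finset.mem_sdiff, mem_Zn] at hx
      obtain ⟨hxX, hx⟩ := hx
      push Not at hx
      obtain ⟨v, hv, hvu⟩ := hx hxX
      refine ⟨v, ?_, hv⟩
      rw [hB, Finset.mem_filter, mem_Ln]
      exact ⟨⟨x, hxX, hv⟩, hvu⟩
    have h2 := S.zb' x0
    have h3 : Y.card ≤ (Y \ Zn R' Y x0).card + (Zn R' Y x0).card :=
      Finset.card_le_card_sdiff_add_card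
    omega
  -- intersections
  have hAX : (A ∩ X).card ≤ 2 * T := by
    refine le_trans (Finset.card_le_card ?_) hD2
    intro v hv
    rw [Finset.mem_inter, hA, Finset.mem_filter] at hv
    rw [Finset.mem_filter]
    refine ⟨hv.2, ?_⟩
    have hne : v ≠ u := by
      rintro rfl
      exact hv.1.2 (S.refl _)
    apply S.symm'
    rw [S.compl v u hne]
    exact hv.1.2
  have hAY : (A ∩ Y).card ≤ 1 := by
    have : A ∩ Y ⊆ {y0} := by
      intro v hv
      rw [Finset.mem_inter, hA, Finset.mem_filter] at hv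
      rw [Finset.mem_singleton]
      have hne : v ≠ u := by
        rintro rfl
        exact hv.1.2 (S.refl _)
      apply (mem_Pn.mp huP v hv.2).mp
      apply S.symm'
      rw [S.compl v u hne]
      exact hv.1.2
    exact le_trans (Finset.card_le_card this) (by simp)
  have hBprop : ∀ v ∈ B, R v x0 ∧ v ≠ x0 := by
    intro v hv
    rw [hB, Finset.mem_filter] at hv
    have hne : v ≠ x0 := by
      rintro rfl
      exact hv.2 (S.refl' _)
    refine ⟨?_, hne⟩
    by_contra hcon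
    exact hv.2 ((S.compl v x0 hne).mpr hcon)
  have hBX : B ∩ X = ∅ := by
    rw [Finset.eq_empty_iff_forall_notMem]
    intro v hv
    rw [Finset.mem_inter] at hv
    obtain ⟨h1, h2⟩ := hBprop v hv.1
    exact h2 ((mem_Pn.mp hx0P v hv.2).mp (S.symm _ _ h1))
  have hBY : (B ∩ Y).card ≤ 2 * T := by
    refine le_trans (Finset.card_le_card ?_) hD1
    intro v hv
    rw [Finset.mem_inter] at hv
    rw [Finset.mem_filter]
    exact ⟨hv.2, S.symm _ _ (hBprop v hv.1).1⟩
  have hAB : (A ∩ B).card ≤ T := by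
    refine le_trans (Finset.card_le_card ?_) (mem_Gd.mp hx0).2.2
    intro v hv
    rw [Finset.mem_inter, hA, Finset.mem_filter, mem_Ln] at hv
    obtain ⟨⟨⟨x, hxX, hvx⟩, _⟩, hvB⟩ := hv
    have := (mem_Pn.mp hvx x0 hx0X).mp (hBprop v hvB).1
    rw [this]
    exact hvx
  -- `X ∩ Y`
  have hXY : (X ∩ Y).card ≤ 2 := by
    have h2 := two_le_Pn S hb hx0
    obtain ⟨o, hoP, hoO⟩ : ∃ o ∈ Pn R X x0, o ∈ O := by
      by_contra hcon
      push Not at hcon
      have : Pn R X x0 \ O = Pn R X x0 := by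
        rw [Finset.sdiff_eq_self_iff_disjoint, Finset.disjoint_left]
        exact hcon
      rw [this] at hx1
      omega
    rw [hO, Finset.mem_inter, mem_Ln, mem_Ln] at hoO
    obtain ⟨y1, hy1Y, hoy1⟩ := hoO.2
    have : X ∩ Y ⊆ {x0, y1} := by
      intro w hw
      rw [Finset.mem_inter] at hw
      rw [Finset.mem_insert, Finset.mem_singleton]
      by_contra hcon
      rw [not_or] at hcon
      have e1 : ¬ R o w := fun h => hcon.1 ((mem_Pn.mp hoP w hw.1).mp h)
      have e2 : ¬ R' o w := fun h => hcon.2 ((mem_Pn.mp hoy1 w hw.2).mp h)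
      have hne : o ≠ w := by
        rintro rfl
        exact e1 (S.refl _)
      exact e2 ((S.compl o w hne).mpr e1)
    exact le_trans (Finset.card_le_card this) (Finset.card_le_two)
  -- the count
  have c1 : X.card + Y.card ≤ (X ∪ Y).card + 2 := by
    have := Finset.card_union_add_card_inter X Y
    omega
  have c2 : A.card ≤ (A \ (X ∪ Y)).card + (2 * T + 1) := by
    have h1 : A ⊆ (A \ (X ∪ Y)) ∪ ((A ∩ X) ∪ (A ∩ Y)) := by
      intro v hv
      by_cases hvX : v ∈ X
      · simp [hv, hvX]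
      · by_cases hvY : v ∈ Y
        · simp [hv, hvX, hvY]
        · simp [hv, hvX, hvY]
    have h2 := Finset.card_le_card h1
    have h3 := Finset.card_union_le (A \ (X ∪ Y)) ((A ∩ X) ∪ (A ∩ Y))
    have h4 := Finset.card_union_le (A ∩ X) (A ∩ Y)
    omega
  have c3 : B.card ≤ (B \ (X ∪ Y ∪ A)).card + 3 * T := by
    have h1 : B ⊆ (B \ (X ∪ Y ∪ A)) ∪ ((B ∩ Y) ∪ (A ∩ B)) := by
      intro v hv
      have hvX : v ∉ X := by
        intro hvX
        have : v ∈ B ∩ X := Finset.mem_inter.mpr ⟨hv, hvX⟩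
        rw [hBX] at this
        simp at this
      by_cases hvY : v ∈ Y
      · simp [hv, hvY]
      · by_cases hvA : v ∈ A
        · simp [hv, hvA]
        · simp [hv, hvX, hvY, hvA]
    have h2 := Finset.card_le_card h1
    have h3 := Finset.card_union_le (B \ (X ∪ Y ∪ A)) ((B ∩ Y) ∪ (A ∩ B))
    have h4 := Finset.card_union_le (B ∩ Y) (A ∩ B)
    omega
  have c4 : (X ∪ Y).card + (A \ (X ∪ Y)).card = (X ∪ Y ∪ A).card := by
    rw [← Finset.card_union_of_disjoint Finset.disjoint_sdiff, Finset.union_sdiff_self_eq_union]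
  have c5 : (X ∪ Y ∪ A).card + (B \ (X ∪ Y ∪ A)).card = (X ∪ Y ∪ A ∪ B).card := by
    rw [← Finset.card_union_of_disjoint Finset.disjoint_sdiff, Finset.union_sdiff_self_eq_union]
  have c6 := Finset.card_le_univ (X ∪ Y ∪ A ∪ B)
  omega

/-- Half of case C(iii). -/
theorem caseCiii_aux (S : Sys R R' X Y z) (ha : 2 * T + z < X.card) (hb : 2 * T + z < Y.card)
    (h : ∀ x ∈ Gd R X T, (Pn R X x \ (Ln R X ∩ Ln R' Y)).card < 2 →
      x ∉ Pn R X x \ (Ln R X ∩ Ln R' Y)) :
    2 * (Gd R X T).card + 2 * (Gd R' Y T).card ≤ Fintype.card V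
      + (((Gd R X T).filter (fun x => (Pn R X x \ (Ln R X ∩ Ln R' Y)).card < 2)) ∩
          Ln R' Y).card := by
  classical
  set O := Ln R X ∩ Ln R' Y with hO
  set X1 := (Gd R X T).filter (fun x => (Pn R X x \ O).card < 2) with hX1
  -- sum bound
  have h1 : 2 * (Gd R X T).card ≤ (Ln R X \ O).card + X1.card := by
    have e1 := sum_Gd_le (R := R) (X := X) (T := T) O
    have e2 : 2 * (Gd R X T).card ≤ ∑ x ∈ Gd R X T, ((Pn R X x \ O).card
        + if (Pn R X x \ O).card < 2 then 1 else 0) := by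
      rw [mul_comm, ← smul_eq_mul]
      apply Finset.card_nsmul_le_sum
      intro x hx
      have := Finset.card_pos.mpr (Pn_sdiff_nonempty S hb hx)
      rw [← hO] at this
      split_ifs <;> omega
    rw [Finset.sum_add_distrib, ← Finset.sum_filter, Finset.sum_const, smul_eq_mul, mul_one] at e2
    rw [← hX1] at e2
    omega
  have h2 := two_mul_Gd_le_Ln (T := T) S.swap ha
  have h3 : X1.card = (X1 ∩ Ln R' Y).card + (X1 \ Ln R' Y).card := by
    have := Finset.card_sdiff_add_card_inter X1 (Ln R' Y)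
    omega
  have hd1 : Disjoint (Ln R X \ O) (X1 \ Ln R' Y) := by
    rw [Finset.disjoint_left]
    intro v hv hv'
    rw [Finset.mem_sdiff, mem_Ln] at hv
    rw [Finset.mem_sdiff, hX1, Finset.mem_filter] at hv'
    obtain ⟨⟨x, hxX, hvx⟩, hvO⟩ := hv
    have hvX : v ∈ X := (mem_Gd.mp hv'.1.1).1
    have : v = x := (mem_Pn.mp hvx v hvX).mp (S.refl v)
    subst this
    exact h v hv'.1.1 hv'.1.2 (Finset.mem_sdiff.mpr ⟨hvx, hvO⟩)
  have hd2 : Disjoint ((Ln R X \ O) ∪ (X1 \ Ln R' Y)) (Ln R' Y) := by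
    rw [Finset.disjoint_left]
    intro v hv hv'
    rw [Finset.mem_union, Finset.mem_sdiff, Finset.mem_sdiff] at hv
    rcases hv with hv | hv
    · exact hv.2 (Finset.mem_inter.mpr ⟨hv.1, hv'⟩)
    · exact hv.2 hv'
  have h4 := Finset.card_le_univ (((Ln R X \ O) ∪ (X1 \ Ln R' Y)) ∪ (Ln R' Y))
  rw [Finset.card_union_of_disjoint hd2, Finset.card_union_of_disjoint hd1] at h4
  omega

/-- All cases. -/
theorem two_core (S : Sys R R' X Y z) (ha : 2 * T + z < X.card) (hb : 2 * T + z < Y.card) :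
    2 * (Gd R X T).card + 2 * (Gd R' Y T).card ≤ Fintype.card V + 2 * z + 5 * T + 3 := by
  classical
  have hOO : Ln R' Y ∩ Ln R X = Ln R X ∩ Ln R' Y := Finset.inter_comm _ _
  have hGX : (Gd R X T).card ≤ X.card := Finset.card_le_card (Finset.filter_subset _ _)
  have hGY : (Gd R' Y T).card ≤ Y.card := Finset.card_le_card (Finset.filter_subset _ _)
  by_cases hA : ∀ x ∈ Gd R X T, 2 ≤ (Pn R X x \ (Ln R X ∩ Ln R' Y)).card
  · have := caseA S ha hA
    omega
  by_cases hB : ∀ y ∈ Gd R' Y T, 2 ≤ (Pn R' Y y \ (Ln R X ∩ Ln R' Y)).card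
  · rw [← hOO] at hB
    have := caseA S.swap hb hB
    omega
  push Not at hA hB
  obtain ⟨x1, hx1, hx1c⟩ := hA
  obtain ⟨y1, hy1, hy1c⟩ := hB
  by_cases hCi : ∃ x0 ∈ Gd R X T, (Pn R X x0 \ (Ln R X ∩ Ln R' Y)).card < 2 ∧
      x0 ∈ Pn R X x0 \ (Ln R X ∩ Ln R' Y)
  · obtain ⟨x0, hx0, h1, h2⟩ := hCi
    have := caseCi S ha hb hx0 h1 h2 hy1 hy1c
    omega
  by_cases hCii : ∃ y0 ∈ Gd R' Y T, (Pn R' Y y0 \ (Ln R X ∩ Ln R' Y)).card < 2 ∧
      y0 ∈ Pn R' Y y0 \ (Ln R X ∩ Ln R' Y)
  · obtain ⟨y0, hy0, h1, h2⟩ := hCii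
    rw [← hOO] at h1 h2 hx1c
    have := caseCi S.swap hb ha hy0 h1 h2 hx1 hx1c
    omega
  push Not at hCi hCii
  have k1 := caseCiii_aux S ha hb hCi
  rw [← hOO] at hCii
  have k2 := caseCiii_aux S.swap hb ha hCii
  rw [hOO] at k2
  set X2 := ((Gd R X T).filter (fun x => (Pn R X x \ (Ln R X ∩ Ln R' Y)).card < 2)) ∩ Ln R' Y
    with hX2
  set Y2 := ((Gd R' Y T).filter (fun x => (Pn R' Y x \ (Ln R X ∩ Ln R' Y)).card < 2)) ∩ Ln R X
    with hY2
  by_cases hX2c : X2.card ≤ 2
  · omega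
  by_cases hY2c : Y2.card ≤ 2
  · omega
  exfalso
  have hX2X : ∀ x ∈ X2, x ∈ X ∧ ∃ y ∈ Y, x ∈ Pn R' Y y := by
    intro x hx
    rw [hX2, Finset.mem_inter, Finset.mem_filter, mem_Ln] at hx
    exact ⟨(mem_Gd.mp hx.1.1).1, hx.2⟩
  have hY2Y : ∀ y ∈ Y2, y ∈ Y ∧ ∃ x ∈ X, y ∈ Pn R X x := by
    intro x hx
    rw [hY2, Finset.mem_inter, Finset.mem_filter, mem_Ln] at hx
    exact ⟨(mem_Gd.mp hx.1.1).1, hx.2⟩
  choose! hXX ys hysY hys using hX2X
  choose! hYY xs hxsX hxs using hY2Y
  have hcov : X2 ×ˢ Y2 ⊆ X2.image (fun x => (x, ys x)) ∪ Y2.image (fun y => (xs y, y)) := by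
    rintro ⟨x, y⟩ hxy
    rw [Finset.mem_product] at hxy
    obtain ⟨hx, hy⟩ := hxy
    rw [Finset.mem_union, Finset.mem_image, Finset.mem_image]
    by_contra hcon
    rw [not_or] at hcon
    obtain ⟨hc1, hc2⟩ := hcon
    have hc1' : y ≠ ys x := fun h => hc1 ⟨x, hx, by rw [h]⟩
    have hc2' : x ≠ xs y := fun h => hc2 ⟨y, hy, by rw [← h]⟩
    have e1 : ¬ R' x y := fun h => hc1' ((mem_Pn.mp (hys x hx) y (hYY y hy)).mp h)
    have e2 : ¬ R y x := fun h => hc2' ((mem_Pn.mp (hxs y hy) x (hXX x hx)).mp h)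
    have hne : x ≠ y := by
      rintro rfl
      exact e1 (S.refl' _)
    exact e1 ((S.compl x y hne).mpr (fun h => e2 (S.symm _ _ h)))
  have hc := Finset.card_le_card hcov
  rw [Finset.card_product] at hc
  have h1 := Finset.card_union_le (X2.image (fun x => (x, ys x))) (Y2.image (fun y => (xs y, y)))
  have h2 : (X2.image (fun x => (x, ys x))).card ≤ X2.card := Finset.card_image_le
  have h3 : (Y2.image (fun y => (xs y, y))).card ≤ Y2.card := Finset.card_image_le
  have h4 : X2.card * Y2.card ≤ X2.card + Y2.card := by omega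
  have h5 : 3 ≤ X2.card := by omega
  have h6 : 3 ≤ Y2.card := by omega
  nlinarith

end sys

end Pool.Agent.R7.Dom
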