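import Pool.Agent.R7.Dom.Defs

/-! The upper bound for `g(n,k)`. -/

namespace Pool.Agent.R7.Dom

open Finset

open Classical in
/-- The weighted halving lemma. -/
theorem dichotomy {α β : Type*} (M : α → β → Prop) (x y : ℝ) (hx : 0 < x) (hy : 0 < y)
    (hxy : 1 / x + 1 / y = 1) :
    ∀ (N p q : ℕ), p + q = N → ∀ (A : Finset α) (B : Finset β),
      (A.card : ℝ) < x ^ p → (B.card : ℝ) < y ^ q →
      (∃ R ⊆ B, R.card ≤ p ∧ ∀ a ∈ A, ∃ b ∈ R, M a b) ∨
      (∃ R ⊆ A, R.card ≤ q ∧ ∀ b ∈ B, ∃ a ∈ R, ¬ M a b) := by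
  intro N
  induction N with
  | zero =>
    intro p q hpq A B hA hB
    have hp : p = 0 := by omega
    subst hp
    have : A.card = 0 := by
      have : (A.card : ℝ) < 1 := by simpa using hA
      exact_mod_cast Nat.lt_one_iff.mp (by exact_mod_cast this)
    rw [Finset.card_eq_zero] at this
    left
    exact ⟨∅, by simp, by simp, by simp [this]⟩
  | succ N ih =>
    intro p q hpq A B hA hB
    rcases A.eq_empty_or_nonempty with hA0 | hA0
    · left
      exact ⟨∅, by simp, by simp, by simp [hA0]⟩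
    rcases B.eq_empty_or_nonempty with hB0 | hB0
    · right
      exact ⟨∅, by simp, by simp, by simp [hB0]⟩
    have hA1 : (1 : ℝ) ≤ A.card := by exact_mod_cast Finset.card_pos.mpr hA0
    have hB1 : (1 : ℝ) ≤ B.card := by exact_mod_cast Finset.card_pos.mpr hB0
    obtain ⟨p, rfl⟩ : ∃ p', p = p' + 1 := by
      rcases p with _ | p
      · rw [pow_zero] at hA; linarith
      · exact ⟨p, rfl⟩
    obtain ⟨q, rfl⟩ : ∃ q', q = q' + 1 := by
      rcases q with _ | q
      · rw [pow_zero] at hB; linarith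
      · exact ⟨q, rfl⟩
    by_cases hb : ∃ b ∈ B, ((A.filter (fun a => ¬ M a b)).card : ℝ) * x ≤ A.card
    · obtain ⟨b, hbB, hb⟩ := hb
      have h1 : ((A.filter (fun a => ¬ M a b)).card : ℝ) < x ^ p := by
        rw [pow_succ] at hA
        have := lt_of_le_of_lt hb hA
        exact lt_of_mul_lt_mul_right this hx.le
      rcases ih p (q + 1) (by omega) (A.filter (fun a => ¬ M a b)) B h1 hB with
        ⟨R, hRB, hRc, hR⟩ | ⟨R, hRA, hRc, hR⟩
      · left
        refine ⟨insert b R, ?_, ?_, ?_⟩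
        · intro c hc
          rw [Finset.mem_insert] at hc
          rcases hc with rfl | hc
          · exact hbB
          · exact hRB hc
        · exact le_trans (Finset.card_insert_le _ _) (by omega)
        · intro a ha
          by_cases hab : M a b
          · exact ⟨b, Finset.mem_insert_self _ _, hab⟩
          · obtain ⟨c, hc, hac⟩ := hR a (by rw [Finset.mem_filter]; exact ⟨ha, hab⟩)
            exact ⟨c, Finset.mem_insert_of_mem hc, hac⟩
      · right
        exact ⟨R, fun a ha => (Finset.mem_filter.mp (hRA ha)).1, hRc, hR⟩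
    · push Not at hb
      -- some `a` is non-adjacent to many
      have hsum : (∑ a ∈ A, ((B.filter (fun b => ¬ M a b)).card : ℝ))
          = ∑ b ∈ B, ((A.filter (fun a => ¬ M a b)).card : ℝ) := by
        have := Finset.sum_card_bipartiteAbove_eq_sum_card_bipartiteBelow (s := A) (t := B)
          (fun a b => ¬ M a b)
        unfold Finset.bipartiteAbove Finset.bipartiteBelow at this
        exact_mod_cast this
      have hlt : (A.card : ℝ) * B.card < (∑ b ∈ B, ((A.filter (fun a => ¬ M a b)).card : ℝ)) * x := by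
        rw [Finset.sum_mul]
        calc (A.card : ℝ) * B.card = ∑ b ∈ B, (A.card : ℝ) := by
              rw [Finset.sum_const, nsmul_eq_mul]; ring
          _ < _ := Finset.sum_lt_sum_of_nonempty hB0 (fun b hbB => hb b hbB)
      have hexa : ∃ a ∈ A, (B.card : ℝ) < ((B.filter (fun b => ¬ M a b)).card : ℝ) * x := by
        by_contra hcon
        push Not at hcon
        have : (∑ a ∈ A, ((B.filter (fun b => ¬ M a b)).card : ℝ)) * x ≤ A.card * B.card := by
          rw [Finset.sum_mul]
          calc _ ≤ ∑ a ∈ A, (B.card : ℝ) := Finset.sum_le_sum hcon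
            _ = _ := by rw [Finset.sum_const, nsmul_eq_mul]
        rw [hsum] at this
        linarith
      obtain ⟨a, haA, ha⟩ := hexa
      have hcard : ((B.filter (fun b => M a b)).card : ℝ) + (B.filter (fun b => ¬ M a b)).card
          = B.card := by
        exact_mod_cast Finset.card_filter_add_card_filter_not (s := B) (fun b => M a b)
      have h1 : ((B.filter (fun b => M a b)).card : ℝ) < y ^ q := by
        rw [pow_succ] at hB
        have e1 : (B.card : ℝ) / x < (B.filter (fun b => ¬ M a b)).card := by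
          rw [div_lt_iff₀ hx]; exact ha
        have e2 : ((B.filter (fun b => M a b)).card : ℝ) < B.card / y := by
          have : (B.card : ℝ) / x + B.card / y = B.card := by
            have := congrArg (fun z => (B.card : ℝ) * z) hxy
            simp only [mul_add, mul_one, mul_one_div] at this
            exact this
          linarith
        have e3 : (B.card : ℝ) / y < y ^ q := by
          rw [div_lt_iff₀ hy]; exact hB
        linarith
      rcases ih (p + 1) q (by omega) A (B.filter (fun b => M a b)) hA h1 with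
        ⟨R, hRB, hRc, hR⟩ | ⟨R, hRA, hRc, hR⟩
      · left
        exact ⟨R, fun b hb => (Finset.mem_filter.mp (hRB hb)).1, hRc, hR⟩
      · right
        refine ⟨insert a R, ?_, ?_, ?_⟩
        · intro c hc
          rw [Finset.mem_insert] at hc
          rcases hc with rfl | hc
          · exact haA
          · exact hRA hc
        · exact le_trans (Finset.card_insert_le _ _) (by omega)
        · intro b hbB
          by_cases hab : M a b
          · obtain ⟨c, hc, hac⟩ := hR b (by rw [Finset.mem_filter]; exact ⟨hbB, hab⟩)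
            exact ⟨c, Finset.mem_insert_of_mem hc, hac⟩
          · exact ⟨a, Finset.mem_insert_self _ _, hab⟩

/-- If `|A| |B| < 4^p` then `A` is covered by at most `p` elements of `B`, or `B` is co-covered by
at most `p` elements of `A`. -/
theorem dichotomy' {α β : Type*} (M : α → β → Prop) (p : ℕ) (hp : 1 ≤ p)
    (A : Finset α) (B : Finset β) (h : A.card * B.card < 4 ^ p) :
    (∃ R ⊆ B, R.card ≤ p ∧ ∀ a ∈ A, ∃ b ∈ R, M a b) ∨
      (∃ R ⊆ A, R.card ≤ p ∧ ∀ b ∈ B, ∃ a ∈ R, ¬ M a b) := by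
  rcases A.eq_empty_or_nonempty with hA0 | hA0
  · left
    exact ⟨∅, by simp, by simp, by simp [hA0]⟩
  rcases B.eq_empty_or_nonempty with hB0 | hB0
  · right
    exact ⟨∅, by simp, by simp, by simp [hB0]⟩
  have hA1 : (0 : ℝ) < A.card := by exact_mod_cast Finset.card_pos.mpr hA0
  have hB1 : (0 : ℝ) < B.card := by exact_mod_cast Finset.card_pos.mpr hB0
  have hp0 : p ≠ 0 := by omega
  set u : ℝ := (A.card : ℝ) ^ ((p : ℝ)⁻¹) with hu
  set v : ℝ := (B.card : ℝ) ^ ((p : ℝ)⁻¹) with hv
  have hu0 : 0 < u := Real.rpow_pos_of_pos hA1 _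
  have hv0 : 0 < v := Real.rpow_pos_of_pos hB1 _
  have hup : u ^ p = A.card := Real.rpow_inv_natCast_pow hA1.le hp0
  have hvp : v ^ p = B.card := Real.rpow_inv_natCast_pow hB1.le hp0
  have huv : u * v < 4 := by
    have : (u * v) ^ p < (4 : ℝ) ^ p := by
      rw [mul_pow, hup, hvp]
      exact_mod_cast h
    exact lt_of_pow_lt_pow_left₀ p (by norm_num) this
  have hlt : u * v < u + v := by
    nlinarith [sq_nonneg (u - v), mul_pos hu0 hv0, add_pos hu0 hv0]
  set t : ℝ := (u + v) / (u * v) with ht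
  have huvp : 0 < u * v := mul_pos hu0 hv0
  have ht1 : 1 < t := by
    rw [ht, lt_div_iff₀ huvp]; linarith
  have ht0 : 0 < t := by linarith
  refine dichotomy M (t * u) (t * v) (mul_pos ht0 hu0) (mul_pos ht0 hv0) ?_ (p + p) p p rfl A B
    ?_ ?_
  · rw [ht]
    have : u + v ≠ 0 := by positivity
    field_simp
    ring
  · rw [mul_pow, hup]
    have : 1 < t ^ p := one_lt_pow₀ ht1 hp0
    nlinarith
  · rw [mul_pow, hvp]
    have : 1 < t ^ p := one_lt_pow₀ ht1 hp0
    nlinarith

section main

variable {V : Type*} [Fintype V] [DecidableEq V]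

open Classical in
/-- The vertices all of whose dominators in `X` lie in `U`. -/
noncomputable def Wset (G : SimpleGraph V) (X U : Finset V) : Finset V :=
  univ.filter (fun v => ∀ x ∈ X, (v = x ∨ G.Adj v x) → x ∈ U)

theorem mem_Wset {G : SimpleGraph V} {X U : Finset V} {v : V} :
    v ∈ Wset G X U ↔ ∀ x ∈ X, (v = x ∨ G.Adj v x) → x ∈ U := by
  unfold Wset; simp

theorem Wset_mono {G : SimpleGraph V} {X U U' : Finset V} (h : U ⊆ U') :
    Wset G X U ⊆ Wset G X U' := by
  intro v hv
  rw [mem_Wset] at hv ⊢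
  exact fun x hx hvx => h (hv x hx hvx)

theorem Wset_disjoint {G : SimpleGraph V} {X U U' : Finset V} (hX : IsDom G X)
    (h : Disjoint U U') : Disjoint (Wset G X U) (Wset G X U') := by
  rw [Finset.disjoint_left]
  intro v hv hv'
  rw [mem_Wset] at hv hv'
  have : ∃ x ∈ X, v = x ∨ G.Adj v x := by
    by_cases hvX : v ∈ X
    · exact ⟨v, hvX, Or.inl rfl⟩
    · obtain ⟨w, hw, hvw⟩ := hX v hvX
      exact ⟨w, hw, Or.inr hvw⟩
  obtain ⟨x, hx, hvx⟩ := this
  exact (Finset.disjoint_left.mp h) (hv x hx hvx) (hv' x hx hvx)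

/-- Averaging over disjoint groups. -/
theorem exists_group {G : SimpleGraph V} {X : Finset V} (hX : IsDom G X) (k : ℕ) :
    ∀ m : ℕ, 1 ≤ m → ∀ X0 ⊆ X, m * k ≤ X0.card →
      ∃ U ⊆ X0, U.card = k ∧ m * (Wset G X U).card ≤ (Wset G X X0).card := by
  intro m hm
  induction m, hm using Nat.le_induction with
  | base =>
    intro X0 hX0 hc
    obtain ⟨U, hU, hUc⟩ := Finset.exists_subset_card_eq (s := X0) (n := k) (by omega)
    refine ⟨U, hU, hUc, ?_⟩
    rw [one_mul]
    exact Finset.card_le_card (Wset_mono hU)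
  | succ m hm ih =>
    intro X0 hX0 hc
    have hc' : m * k + k ≤ X0.card := by rw [add_mul, one_mul] at hc; exact hc
    obtain ⟨U1, hU1, hU1c⟩ := Finset.exists_subset_card_eq (s := X0) (n := k) (by omega)
    by_cases h1 : (m + 1) * (Wset G X U1).card ≤ (Wset G X X0).card
    · exact ⟨U1, hU1, hU1c, h1⟩
    push Not at h1
    have hX1c : m * k ≤ (X0 \ U1).card := by
      rw [Finset.card_sdiff_of_subset hU1]; omega
    obtain ⟨U, hU, hUc, hUW⟩ := ih (X0 \ U1) (fun v hv => hX0 (Finset.mem_sdiff.mp hv).1) hX1c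
    refine ⟨U, fun v hv => (Finset.mem_sdiff.mp (hU hv)).1, hUc, ?_⟩
    have hdisj : Disjoint (Wset G X (X0 \ U1)) (Wset G X U1) :=
      Wset_disjoint hX Finset.sdiff_disjoint
    have hsub : Wset G X (X0 \ U1) ∪ Wset G X U1 ⊆ Wset G X X0 :=
      Finset.union_subset (Wset_mono Finset.sdiff_subset) (Wset_mono hU1)
    have hcard := Finset.card_le_card hsub
    rw [Finset.card_union_of_disjoint hdisj] at hcard
    have : (m + 1) * (m * (Wset G X U).card) < m * (Wset G X X0).card := by
      have h2 : (m + 1) * (m * (Wset G X U).card + (Wset G X U1).card)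
          ≤ (m + 1) * (Wset G X X0).card := Nat.mul_le_mul_left _ (by omega)
      nlinarith
    have h3 : m * ((m + 1) * (Wset G X U).card) < m * (Wset G X X0).card := by
      calc m * ((m + 1) * (Wset G X U).card) = (m + 1) * (m * (Wset G X U).card) := by ring
        _ < _ := this
    exact (Nat.lt_of_mul_lt_mul_left h3).le

/-- No `k - 1` vertices dominate `W(U)` when `|U| = k`. -/
theorem not_cover {G : SimpleGraph V} {X : Finset V} {k : ℕ} (hk : 1 ≤ k)
    (hX : IsKMinDom G k X) {U : Finset V} (hU : U ⊆ X) (hUc : U.card = k)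
    {R : Finset V} (hR : R.card ≤ k - 1)
    (h : ∀ v ∈ Wset G X U, v ∈ R ∨ ∃ r ∈ R, G.Adj v r) : False := by
  have hkV : k - 1 ≤ (univ : Finset V).card := by
    have := Finset.card_le_univ U
    rw [Finset.card_univ]
    omega
  obtain ⟨R', hRR', _, hR'c⟩ := Finset.exists_subsuperset_card_eq (Finset.subset_univ R) hR hkV
  refine hX.2 k hk le_rfl U R' hU hUc hR'c ?_
  intro v hv
  rw [Finset.mem_union, not_or, Finset.mem_sdiff] at hv
  obtain ⟨hv1, hv2⟩ := hv
  by_cases hvW : v ∈ Wset G X U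
  · rcases h v hvW with h' | ⟨r, hr, hvr⟩
    · exact absurd (hRR' h') hv2
    · exact ⟨r, Finset.mem_union_right _ (hRR' hr), hvr⟩
  · rw [mem_Wset] at hvW
    push Not at hvW
    obtain ⟨x, hx, hvx, hxU⟩ := hvW
    have hxm : x ∈ X \ U := Finset.mem_sdiff.mpr ⟨hx, hxU⟩
    rcases hvx with rfl | hvx
    · exact absurd (Finset.mem_sdiff.mp hxm) hv1
    · exact ⟨x, Finset.mem_union_left _ hxm, hvx⟩

/-- The basic inequality for a graph and its complement. -/
theorem core_upper {G : SimpleGraph V} {X Y : Finset V} {k : ℕ} (hk : 2 ≤ k)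
    (hX : IsKMinDom G k X) (hY : IsKMinDom Gᶜ k Y) :
    (X.card / k) * (Y.card / k) * 4 ^ (k - 1) ≤ (Fintype.card V) ^ 2 := by
  set n := Fintype.card V with hn
  rcases Nat.eq_zero_or_pos (X.card / k) with h0 | hmX
  · rw [h0]; simp
  rcases Nat.eq_zero_or_pos (Y.card / k) with h0 | hmY
  · rw [h0]; simp
  obtain ⟨U, hU, hUc, hUW⟩ := exists_group hX.1 k (X.card / k) hmX X (Finset.Subset.refl _)
    (Nat.div_mul_le_self _ _)
  obtain ⟨U', hU', hUc', hUW'⟩ := exists_group hY.1 k (Y.card / k) hmY Y (Finset.Subset.refl _)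
    (Nat.div_mul_le_self _ _)
  have hW : (X.card / k) * (Wset G X U).card ≤ n := le_trans hUW (Finset.card_le_univ _)
  have hW' : (Y.card / k) * (Wset Gᶜ Y U').card ≤ n := le_trans hUW' (Finset.card_le_univ _)
  have hprod : 4 ^ (k - 1) ≤ (Wset G X U).card * (Wset Gᶜ Y U').card := by
    by_contra hcon
    push Not at hcon
    rcases dichotomy' (fun a b => G.Adj a b) (k - 1) (by omega) (Wset G X U) (Wset Gᶜ Y U') hcon
      with ⟨R, _, hRc, hR⟩ | ⟨R, _, hRc, hR⟩
    · exact not_cover (by omega) hX hU hUc hRc (fun v hv => Or.inr (hR v hv))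
    · refine not_cover (by omega) hY hU' hUc' hRc (fun v hv => ?_)
      obtain ⟨r, hr, hrv⟩ := hR v hv
      by_cases hvr : v = r
      · left; rw [hvr]; exact hr
      · right
        refine ⟨r, hr, ?_⟩
        rw [SimpleGraph.compl_adj]
        exact ⟨hvr, fun h => hrv h.symm⟩
  calc (X.card / k) * (Y.card / k) * 4 ^ (k - 1)
      ≤ (X.card / k) * (Y.card / k) * ((Wset G X U).card * (Wset Gᶜ Y U').card) :=
        Nat.mul_le_mul_left _ hprod
    _ = ((X.card / k) * (Wset G X U).card) * ((Y.card / k) * (Wset Gᶜ Y U').card) := by ring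
    _ ≤ n * n := Nat.mul_le_mul hW hW'
    _ = n ^ 2 := by ring

theorem upper_card {G : SimpleGraph V} {X Y : Finset V} {k : ℕ} (hk : 2 ≤ k)
    (hX : IsKMinDom G k X) (hY : IsKMinDom Gᶜ k Y) :
    4 ^ k * (X.card * Y.card) ≤ 16 * k ^ 2 * (Fintype.card V) ^ 2
      + 4 ^ k * (k * Fintype.card V) := by
  have hcore := core_upper hk hX hY
  set n := Fintype.card V with hn
  have hXn : X.card ≤ n := Finset.card_le_univ X
  have hYn : Y.card ≤ n := Finset.card_le_univ Y
  have hk0 : 0 < k := by omega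
  have hXk : X.card < k * (X.card / k) + k := by
    have := Nat.div_add_mod X.card k
    have := Nat.mod_lt X.card hk0
    omega
  have hYk : Y.card < k * (Y.card / k) + k := by
    have := Nat.div_add_mod Y.card k
    have := Nat.mod_lt Y.card hk0
    omega
  rcases Nat.eq_zero_or_pos (X.card / k) with h0 | hmX
  · rw [h0] at hXk
    have : X.card * Y.card ≤ k * n := Nat.mul_le_mul (by omega) hYn
    calc 4 ^ k * (X.card * Y.card) ≤ 4 ^ k * (k * n) := Nat.mul_le_mul_left _ this
      _ ≤ _ := Nat.le_add_left _ _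
  rcases Nat.eq_zero_or_pos (Y.card / k) with h0 | hmY
  · rw [h0] at hYk
    have : X.card * Y.card ≤ n * k := Nat.mul_le_mul hXn (by omega)
    calc 4 ^ k * (X.card * Y.card) ≤ 4 ^ k * (n * k) := Nat.mul_le_mul_left _ this
      _ = 4 ^ k * (k * n) := by ring
      _ ≤ _ := Nat.le_add_left _ _
  have h1 : X.card ≤ 2 * k * (X.card / k) := by nlinarith
  have h2 : Y.card ≤ 2 * k * (Y.card / k) := by nlinarith
  have h4 : 4 ^ k = 4 * 4 ^ (k - 1) := by
    rw [← pow_succ']
    congr 1
    omega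
  calc 4 ^ k * (X.card * Y.card)
      ≤ 4 ^ k * ((2 * k * (X.card / k)) * (2 * k * (Y.card / k))) :=
        Nat.mul_le_mul_left _ (Nat.mul_le_mul h1 h2)
    _ = 16 * k ^ 2 * ((X.card / k) * (Y.card / k) * 4 ^ (k - 1)) := by rw [h4]; ring
    _ ≤ 16 * k ^ 2 * n ^ 2 := Nat.mul_le_mul_left _ hcore
    _ ≤ _ := Nat.le_add_right _ _

end main

/-- The upper bound for `g(n,k)`. -/
theorem g_upper (n k : ℕ) (hk : 2 ≤ k) :
    4 ^ k * g n k ≤ 16 * k ^ 2 * n ^ 2 + 4 ^ k * (k * n) := by
  have h : g n k ≤ (16 * k ^ 2 * n ^ 2 + 4 ^ k * (k * n)) / 4 ^ k := by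
    apply g_le
    intro G X Y hX hY
    have := upper_card hk hX hY
    rw [Fintype.card_fin] at this
    rw [Nat.le_div_iff_mul_le (by positivity)]
    calc X.card * Y.card * 4 ^ k = 4 ^ k * (X.card * Y.card) := by ring
      _ ≤ _ := this
  calc 4 ^ k * g n k ≤ 4 ^ k * ((16 * k ^ 2 * n ^ 2 + 4 ^ k * (k * n)) / 4 ^ k) :=
        Nat.mul_le_mul_left _ h
    _ ≤ _ := Nat.mul_div_le _ _

end Pool.Agent.R7.Dom
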